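import Mathlib

/-!
Fourier coefficients of the weight `|1 - e^{iθ}|^{2μ}`.
-/

set_option autoImplicit false

open MeasureTheory intervalIntegral Set

namespace Pool.Agent.MP658dbf

/-- the weight -/
noncomputable def wt (μ θ : ℝ) : ℝ := ‖1 - Complex.exp (θ * Complex.I)‖ ^ (2 * μ)

theorem norm_one_sub_exp (θ : ℝ) : ‖1 - Complex.exp (θ * Complex.I)‖ = |2 * Real.sin (θ / 2)| := by
  rw [norm_sub_rev, mul_comm, Complex.norm_exp_I_mul_ofReal_sub_one]
  rfl

theorem wt_eq (μ θ : ℝ) : wt μ θ = |2 * Real.sin (θ / 2)| ^ (2 * μ) := by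
  rw [wt, norm_one_sub_exp]

theorem continuous_wt {μ : ℝ} (hμ : 0 < μ) : Continuous (wt μ) := by
  unfold wt
  apply Continuous.rpow_const
  · fun_prop
  · intro x; right; linarith

theorem wt_periodic (μ : ℝ) : Function.Periodic (wt μ) (2 * Real.pi) := by
  intro θ
  simp only [wt]
  congr 3
  push_cast
  rw [add_mul, Complex.exp_add, Complex.exp_two_pi_mul_I, mul_one]

/-- the Fourier cosine coefficients -/
noncomputable def wh (μ : ℝ) (k : ℕ) : ℝ :=
  (∫ θ in (-Real.pi)..Real.pi, wt μ θ * Real.cos (k * θ)) / (2 * Real.pi)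

theorem integral_wt_cos_shift (μ : ℝ) (k : ℕ) :
    ∫ θ in (-Real.pi)..Real.pi, wt μ θ * Real.cos (k * θ) =
      ∫ θ in (0:ℝ)..(2 * Real.pi), wt μ θ * Real.cos (k * θ) := by
  have hp : Function.Periodic (fun θ => wt μ θ * Real.cos (k * θ)) (2 * Real.pi) := by
    intro θ
    show wt μ (θ + 2 * Real.pi) * Real.cos (k * (θ + 2 * Real.pi)) = _
    rw [wt_periodic μ θ]
    congr 1
    rw [mul_add]
    exact Real.cos_add_nat_mul_two_pi _ _
  have := hp.intervalIntegral_add_eq (-Real.pi) 0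
  have e1 : -Real.pi + 2 * Real.pi = Real.pi := by ring
  rw [e1, zero_add] at this
  exact this

theorem deriv_aux {μ : ℝ} (hμ : 0 < μ) (k : ℕ) (θ : ℝ) (h0 : 0 < Real.sin (θ / 2)) :
    HasDerivAt (fun θ => |2 * Real.sin (θ / 2)| ^ (2 * μ) * Real.sin (θ / 2) *
        Real.cos ((k + 1 / 2) * θ))
      ((1 / 2) * ((k + 1 + μ) * (wt μ θ * Real.cos ((k + 1 : ℕ) * θ)) -
        (k - μ) * (wt μ θ * Real.cos (k * θ)))) θ := by
  have hs : HasDerivAt (fun θ : ℝ => Real.sin (θ / 2)) (Real.cos (θ / 2) * (1 / 2)) θ := by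
    exact ((hasDerivAt_id' θ).div_const 2).sin
  have hpow : HasDerivAt (fun θ : ℝ => (2 * Real.sin (θ / 2)) ^ (2 * μ))
      ((2 * (Real.cos (θ / 2) * (1 / 2))) * (2 * μ) * (2 * Real.sin (θ / 2)) ^ (2 * μ - 1)) θ := by
    have h1 : HasDerivAt (fun θ : ℝ => 2 * Real.sin (θ / 2)) (2 * (Real.cos (θ / 2) * (1 / 2))) θ :=
      hs.const_mul 2
    exact h1.rpow_const (Or.inl (by positivity))
  have hcos : HasDerivAt (fun θ : ℝ => Real.cos ((k + 1 / 2) * θ))
      (-Real.sin ((k + 1 / 2) * θ) * (k + 1 / 2)) θ := by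
    have := ((hasDerivAt_id' θ).const_mul ((k:ℝ) + 1 / 2)).cos
    simpa using this
  have hprod := (hpow.mul hs).mul hcos
  have hev : (fun θ => |2 * Real.sin (θ / 2)| ^ (2 * μ) * Real.sin (θ / 2) *
        Real.cos ((k + 1 / 2) * θ)) =ᶠ[nhds θ]
      (fun θ => (2 * Real.sin (θ / 2)) ^ (2 * μ) * Real.sin (θ / 2) *
        Real.cos ((k + 1 / 2) * θ)) := by
    have hc : Continuous (fun θ : ℝ => Real.sin (θ / 2)) := by fun_prop
    have : ∀ᶠ t in nhds θ, 0 < Real.sin (t / 2) := hc.continuousAt.eventually (lt_mem_nhds h0)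
    filter_upwards [this] with t ht
    rw [abs_of_pos (by positivity)]
  have hprod' : HasDerivAt (fun θ => (2 * Real.sin (θ / 2)) ^ (2 * μ) * Real.sin (θ / 2) *
        Real.cos ((k + 1 / 2) * θ)) _ θ := hprod
  refine HasDerivAt.congr_of_eventuallyEq (hprod'.congr_deriv ?_) hev
  have hwt : wt μ θ = (2 * Real.sin (θ / 2)) ^ (2 * μ - 1) * (2 * Real.sin (θ / 2)) := by
    rw [wt_eq, abs_of_pos (by positivity), ← Real.rpow_add_one (by positivity)]
    congr 1; ring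
  have hwt2 : (2 * Real.sin (θ / 2)) ^ (2 * μ) =
      (2 * Real.sin (θ / 2)) ^ (2 * μ - 1) * (2 * Real.sin (θ / 2)) := by
    rw [← Real.rpow_add_one (by positivity)]
    congr 1; ring
  rw [hwt]
  have hc1 : Real.cos ((k + 1 : ℕ) * θ) = Real.cos ((k + 1 / 2) * θ) * Real.cos (θ / 2)
      - Real.sin ((k + 1 / 2) * θ) * Real.sin (θ / 2) := by
    rw [← Real.cos_add]; congr 1; push_cast; ring
  have hc2 : Real.cos (k * θ) = Real.cos ((k + 1 / 2) * θ) * Real.cos (θ / 2)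
      + Real.sin ((k + 1 / 2) * θ) * Real.sin (θ / 2) := by
    rw [← Real.cos_sub]; congr 1; ring
  rw [hc1, hc2]
  simp only [Pi.mul_apply]
  rw [hwt2]
  ring

theorem wh_rec {μ : ℝ} (hμ : 0 < μ) (k : ℕ) :
    ((k : ℝ) + 1 + μ) * wh μ (k + 1) = (k - μ) * wh μ k := by
  have hcont := continuous_wt hμ
  have hmain : ∫ θ in (0:ℝ)..(2 * Real.pi),
      ((1 / 2) * ((k + 1 + μ) * (wt μ θ * Real.cos ((k + 1 : ℕ) * θ)) -
        (k - μ) * (wt μ θ * Real.cos (k * θ)))) = 0 := by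
    have h := integral_eq_sub_of_hasDerivAt_of_le (a := 0) (b := 2 * Real.pi)
      (f := fun θ => |2 * Real.sin (θ / 2)| ^ (2 * μ) * Real.sin (θ / 2) *
        Real.cos ((k + 1 / 2) * θ)) (f' := fun θ =>
        ((1 / 2) * ((k + 1 + μ) * (wt μ θ * Real.cos ((k + 1 : ℕ) * θ)) -
        (k - μ) * (wt μ θ * Real.cos (k * θ))))) (by positivity) ?_ ?_ ?_
    · rw [h]
      have e : 2 * Real.pi / 2 = Real.pi := by ring
      simp [e]
    · apply Continuous.continuousOn
      have : Continuous (fun θ => |2 * Real.sin (θ / 2)| ^ (2 * μ)) := by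
        apply Continuous.rpow_const
        · fun_prop
        · intro x; right; linarith
      fun_prop
    · intro θ hθ
      apply deriv_aux hμ
      apply Real.sin_pos_of_pos_of_lt_pi
      · linarith [hθ.1]
      · linarith [hθ.2]
    · apply Continuous.intervalIntegrable
      fun_prop
  have hi1 : IntervalIntegrable (fun θ => wt μ θ * Real.cos ((k + 1 : ℕ) * θ)) volume 0
      (2 * Real.pi) := by
    apply Continuous.intervalIntegrable; fun_prop
  have hi2 : IntervalIntegrable (fun θ => wt μ θ * Real.cos (k * θ)) volume 0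
      (2 * Real.pi) := by
    apply Continuous.intervalIntegrable; fun_prop
  rw [intervalIntegral.integral_const_mul,
    intervalIntegral.integral_sub (hi1.const_mul _) (hi2.const_mul _),
    intervalIntegral.integral_const_mul, intervalIntegral.integral_const_mul, ← integral_wt_cos_shift, ← integral_wt_cos_shift] at hmain
  unfold wh
  have hpi : (0:ℝ) < 2 * Real.pi := by positivity
  field_simp
  linarith

theorem beta_real {μ : ℝ} (hμ : 0 < μ) :
    ∫ x in (0:ℝ)..1, (x ^ (μ - 1 / 2) * (1 - x) ^ (μ - 1 / 2)) =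
      Real.Gamma (μ + 1 / 2) ^ 2 / Real.Gamma (2 * μ + 1) := by
  have h := Complex.betaIntegral_eq_Gamma_mul_div ((μ + 1 / 2 : ℝ) : ℂ) ((μ + 1 / 2 : ℝ) : ℂ)
    (by rw [Complex.ofReal_re]; linarith) (by rw [Complex.ofReal_re]; linarith)
  have h2 : Complex.betaIntegral ((μ + 1 / 2 : ℝ) : ℂ) ((μ + 1 / 2 : ℝ) : ℂ) =
      ((∫ x in (0:ℝ)..1, (x ^ (μ - 1 / 2) * (1 - x) ^ (μ - 1 / 2)) : ℝ) : ℂ) := by
    unfold Complex.betaIntegral
    rw [← intervalIntegral.integral_ofReal]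
    apply intervalIntegral.integral_congr
    intro x hx
    rw [uIcc_of_le zero_le_one] at hx
    simp only
    push_cast
    rw [Complex.ofReal_cpow hx.1, Complex.ofReal_cpow (by linarith [hx.2])]
    push_cast
    congr 2
    · ring
    · ring
  rw [h2] at h
  rw [← Complex.ofReal_add, Complex.Gamma_ofReal, Complex.Gamma_ofReal] at h
  have h3 : (∫ x in (0:ℝ)..1, (x ^ (μ - 1 / 2) * (1 - x) ^ (μ - 1 / 2)) : ℝ) =
      Real.Gamma (μ + 1 / 2) * Real.Gamma (μ + 1 / 2) / Real.Gamma (μ + 1 / 2 + (μ + 1 / 2)) := by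
    exact_mod_cast h
  rw [h3, sq]
  congr 2; ring

theorem sin_integral {μ : ℝ} (hμ : 0 < μ) :
    ∫ φ in (0:ℝ)..Real.pi, (Real.sin φ / 2) ^ (2 * μ) =
      Real.Gamma (μ + 1 / 2) ^ 2 / Real.Gamma (2 * μ + 1) := by
  rw [← beta_real hμ]
  have h := integral_comp_mul_deriv_of_deriv_nonneg (a := 0) (b := Real.pi)
    (f := fun φ => (1 - Real.cos φ) / 2) (f' := fun φ => Real.sin φ / 2)
    (g := fun x => (x ^ (μ - 1 / 2) * (1 - x) ^ (μ - 1 / 2))) ?_ ?_ ?_
  · have e1 : (1 - Real.cos 0) / 2 = 0 := by simp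
    have e2 : (1 - Real.cos Real.pi) / 2 = 1 := by rw [Real.cos_pi]; norm_num
    simp only [e1, e2] at h
    rw [← h]
    apply intervalIntegral.integral_congr
    intro φ hφ
    rw [uIcc_of_le Real.pi_pos.le] at hφ
    have hs : 0 ≤ Real.sin φ := Real.sin_nonneg_of_nonneg_of_le_pi hφ.1 hφ.2
    simp only [Function.comp]
    have hc1 : 0 ≤ (1 - Real.cos φ) / 2 := by linarith [Real.cos_le_one φ]
    have hc2 : 0 ≤ 1 - (1 - Real.cos φ) / 2 := by linarith [Real.neg_one_le_cos φ]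
    rw [← Real.mul_rpow hc1 hc2]
    have e3 : (1 - Real.cos φ) / 2 * (1 - (1 - Real.cos φ) / 2) = (Real.sin φ / 2) ^ (2:ℝ) := by
      rw [Real.rpow_two]
      have := Real.sin_sq_add_cos_sq φ
      nlinarith
    rw [e3, ← Real.rpow_mul (by positivity)]
    rcases hs.eq_or_lt with h0 | h0
    · rw [← h0]
      simp
      rw [Real.zero_rpow (by linarith)]
    · rw [← Real.rpow_add_one (by positivity)]
      congr 1; ring
  · fun_prop
  · intro x hx
    have := ((hasDerivAt_const x (1:ℝ)).sub (Real.hasDerivAt_cos x)).div_const 2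
    simpa using this
  · intro x hx
    rw [min_eq_left Real.pi_pos.le, max_eq_right Real.pi_pos.le] at hx
    have : 0 ≤ Real.sin x := Real.sin_nonneg_of_nonneg_of_le_pi hx.1.le hx.2.le
    positivity

theorem wh_zero {μ : ℝ} (hμ : 0 < μ) :
    wh μ 0 = Real.Gamma (2 * μ + 1) / Real.Gamma (μ + 1) ^ 2 := by
  have h1 : ∫ θ in (0:ℝ)..(2 * Real.pi), wt μ θ * Real.cos ((0:ℕ) * θ) =
      2 * ((4:ℝ) ^ (2 * μ) * (Real.Gamma (μ + 1 / 2) ^ 2 / Real.Gamma (2 * μ + 1))) := by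
    rw [← sin_integral hμ, ← intervalIntegral.integral_const_mul]
    have h2 := intervalIntegral.integral_comp_div (a := 0) (b := 2 * Real.pi) (c := 2)
      (fun φ => (4:ℝ) ^ (2 * μ) * (Real.sin φ / 2) ^ (2 * μ)) (by norm_num)
    have e : 2 * Real.pi / 2 = Real.pi := by ring
    rw [e, zero_div, smul_eq_mul] at h2
    rw [← h2]
    apply intervalIntegral.integral_congr
    intro θ hθ
    rw [uIcc_of_le (by positivity)] at hθ
    have hs : 0 ≤ Real.sin (θ / 2) := Real.sin_nonneg_of_nonneg_of_le_pi (by linarith [hθ.1])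
      (by linarith [hθ.2])
    simp only
    rw [wt_eq, abs_of_nonneg (by positivity), ← Real.mul_rpow (by norm_num) (by positivity)]
    simp
    congr 1
    ring
  unfold wh
  rw [integral_wt_cos_shift, h1]
  have hdup := Real.Gamma_mul_Gamma_add_half (μ + 1 / 2)
  have e1 : μ + 1 / 2 + 1 / 2 = μ + 1 := by ring
  have e2 : 2 * (μ + 1 / 2) = 2 * μ + 1 := by ring
  rw [e1, e2] at hdup
  have hG1 : 0 < Real.Gamma (μ + 1) := Real.Gamma_pos_of_pos (by linarith)
  have hG2 : 0 < Real.Gamma (2 * μ + 1) := Real.Gamma_pos_of_pos (by linarith)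
  have hGh : Real.Gamma (μ + 1 / 2) =
      Real.Gamma (2 * μ + 1) * 2 ^ (1 - (2 * μ + 1)) * √Real.pi / Real.Gamma (μ + 1) := by
    rw [eq_div_iff hG1.ne']
    exact hdup
  rw [hGh]
  have e3 : (4:ℝ) ^ (2 * μ) * (2 ^ (1 - (2 * μ + 1)) : ℝ) ^ 2 = 1 := by
    have : (4:ℝ) = 2 ^ (2:ℝ) := by norm_num
    rw [this, ← Real.rpow_mul (by norm_num), ← Real.rpow_natCast, ← Real.rpow_mul (by norm_num),
      ← Real.rpow_add (by norm_num)]
    have : 2 * (2 * μ) + (1 - (2 * μ + 1)) * ((2:ℕ):ℝ) = 0 := by push_cast; ring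
    rw [this, Real.rpow_zero]
  have hpi : √Real.pi ^ 2 = Real.pi := Real.sq_sqrt Real.pi_pos.le
  have hpi0 := Real.pi_pos
  have : 2 * ((4:ℝ) ^ (2 * μ) * ((Real.Gamma (2 * μ + 1) * 2 ^ (1 - (2 * μ + 1)) * √Real.pi / Real.Gamma (μ + 1)) ^ 2 /
      Real.Gamma (2 * μ + 1))) / (2 * Real.pi) =
      ((4:ℝ) ^ (2 * μ) * (2 ^ (1 - (2 * μ + 1)) : ℝ) ^ 2) * (√Real.pi ^ 2 / Real.pi) *
        (Real.Gamma (2 * μ + 1) / Real.Gamma (μ + 1) ^ 2) := by
    field_simp
  rw [this, e3, hpi]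
  field_simp

end Pool.Agent.MP658dbf
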