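import Pool.Agent.Lib.MP_658dbf_an.Energy
import Pool.Agent.Lib.MP_658dbf_an.Analytic

/-!
From the weighted integral of a polynomial to the energy of its (differenced) coefficient list.
-/

set_option autoImplicit false

open MeasureTheory Set

namespace Pool.Agent.MP658dbf

/-- evaluation of a coefficient list -/
noncomputable def ev (z : ℂ) : List ℤ → ℂ
  | [] => 0
  | x :: l => x + z * ev z l

/-- the kernel -/
noncomputable def kap (μ : ℝ) (n : ℕ) : ℝ := if n = 0 then 0 else -wh μ n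

/-- its tail sums -/
noncomputable def tl (μ : ℝ) (n : ℕ) : ℝ :=
  if n = 0 then (1 + μ) * kap μ 1 / (2 * μ) else (n + μ) * kap μ n / (2 * μ)

theorem kap_zero (μ : ℝ) : kap μ 0 = 0 := by simp [kap]

theorem kap_pos (μ : ℝ) {n : ℕ} (hn : n ≠ 0) : kap μ n = -wh μ n := by simp [kap, hn]

theorem wh_zero_pos {μ : ℝ} (hμ : 0 < μ) : 0 < wh μ 0 := by
  rw [wh_zero hμ]
  have h1 : 0 < Real.Gamma (μ + 1) := Real.Gamma_pos_of_pos (by linarith)
  have h2 : 0 < Real.Gamma (2 * μ + 1) := Real.Gamma_pos_of_pos (by linarith)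
  positivity

theorem kap_one {μ : ℝ} (hμ : 0 < μ) : (1 + μ) * kap μ 1 = μ * wh μ 0 := by
  have h := wh_rec hμ 0
  rw [kap_pos μ one_ne_zero]
  norm_num at h
  linarith

theorem kap_rec {μ : ℝ} (hμ : 0 < μ) {n : ℕ} (hn : n ≠ 0) :
    ((n : ℝ) + 1 + μ) * kap μ (n + 1) = (n - μ) * kap μ n := by
  have h := wh_rec hμ n
  rw [kap_pos μ hn, kap_pos μ (Nat.succ_ne_zero n)]
  linarith

theorem pos_of_mul_pos_left' {a b : ℝ} (h : 0 < a * b) (ha : 0 < a) : 0 < b := by
  by_contra hb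
  push Not at hb
  have := mul_nonpos_of_nonneg_of_nonpos ha.le hb
  linarith

theorem kap_nonneg {μ : ℝ} (hμ : 0 < μ) (hμ1 : μ ≤ 1) (n : ℕ) : 0 ≤ kap μ n := by
  induction n with
  | zero => rw [kap_zero]
  | succ n ih =>
    rcases Nat.eq_zero_or_pos n with rfl | hn
    · have h := kap_one hμ
      have h0 := wh_zero_pos hμ
      have h1 : 0 < μ * wh μ 0 := mul_pos hμ h0
      rw [← h] at h1
      exact (pos_of_mul_pos_left' h1 (by linarith)).le
    · have h := kap_rec hμ hn.ne'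
      have hn1 : (1:ℝ) ≤ n := by exact_mod_cast hn
      have h1 : 0 ≤ ((n:ℝ) - μ) * kap μ n := mul_nonneg (by linarith) ih
      rw [← h] at h1
      exact nonneg_of_mul_nonneg_right h1 (by linarith)

theorem kap_anti {μ : ℝ} (hμ : 0 < μ) (hμ1 : μ ≤ 1) (n : ℕ) (hn : 1 ≤ n) :
    kap μ (n + 1) ≤ kap μ n := by
  have h := kap_rec hμ (by omega : n ≠ 0)
  have hn1 : (1:ℝ) ≤ n := by exact_mod_cast hn
  have h0 := kap_nonneg hμ hμ1 n
  have h1 := kap_nonneg hμ hμ1 (n + 1)
  have hp : (0:ℝ) < n + 1 + μ := by linarith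
  have h2 : ((n : ℝ) + 1 + μ) * kap μ (n + 1) ≤ ((n : ℝ) + 1 + μ) * kap μ n := by
    rw [h]
    apply mul_le_mul_of_nonneg_right _ h0
    linarith
  exact le_of_mul_le_mul_left h2 hp

theorem tl_rec {μ : ℝ} (hμ : 0 < μ) (n : ℕ) : tl μ n = kap μ n + tl μ (n + 1) := by
  rcases Nat.eq_zero_or_pos n with rfl | hn
  · simp [tl, kap_zero]
  · have h := kap_rec hμ hn.ne'
    simp only [tl, hn.ne', if_false, Nat.succ_ne_zero]
    push_cast
    rw [h]
    field_simp
    ring

theorem tl_nonneg {μ : ℝ} (hμ : 0 < μ) (hμ1 : μ ≤ 1) (n : ℕ) : 0 ≤ tl μ n := by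
  unfold tl
  split_ifs
  · have := kap_nonneg hμ hμ1 1
    positivity
  · have := kap_nonneg hμ hμ1 n
    positivity

theorem tl_one {μ : ℝ} (hμ : 0 < μ) : 2 * tl μ 1 = wh μ 0 := by
  have h := kap_one hμ
  simp only [tl, one_ne_zero, if_false]
  push_cast
  rw [h]
  field_simp

/-- abbreviation for the point on the circle -/
noncomputable def zt (θ : ℝ) : ℂ := Complex.exp (θ * Complex.I)

theorem continuous_zt : Continuous zt := by unfold zt; fun_prop

theorem norm_zt (θ : ℝ) : ‖zt θ‖ = 1 := Complex.norm_exp_ofReal_mul_I θ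

theorem continuous_ev (l : List ℤ) : Continuous (fun θ => ev (zt θ) l) := by
  induction l with
  | nil => simp only [ev]; fun_prop
  | cons x l ih =>
    simp only [ev]
    have := continuous_zt
    fun_prop

theorem re_zt_pow (k : ℕ) (θ : ℝ) : (zt θ ^ k).re = Real.cos (k * θ) := by
  unfold zt
  rw [← Complex.exp_nat_mul]
  have : (k : ℂ) * (θ * Complex.I) = ((k * θ : ℝ) : ℂ) * Complex.I := by push_cast; ring
  rw [this, Complex.exp_ofReal_mul_I_re]

theorem integral_re {μ : ℝ} (hμ : 0 < μ) (k : ℕ) (hk : 1 ≤ k) (l : List ℤ) :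
    ∫ θ in (-Real.pi)..Real.pi, wt μ θ * (zt θ ^ k * ev (zt θ) l).re =
      -(2 * Real.pi) * K (kap μ) k l := by
  have hw := continuous_wt hμ
  induction l generalizing k with
  | nil => simp [ev, K]
  | cons x l ih =>
    have hz := continuous_zt
    have he := continuous_ev l
    have h1 : ∀ θ, wt μ θ * (zt θ ^ k * ev (zt θ) (x :: l)).re =
        (x : ℝ) * (wt μ θ * Real.cos (k * θ)) + wt μ θ * (zt θ ^ (k + 1) * ev (zt θ) l).re := by
      intro θ
      have : zt θ ^ k * ev (zt θ) (x :: l) = (x : ℝ) * zt θ ^ k + zt θ ^ (k + 1) * ev (zt θ) l := by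
        simp only [ev]
        push_cast
        ring
      rw [this, Complex.add_re, Complex.re_ofReal_mul, re_zt_pow]
      ring
    simp_rw [h1]
    rw [intervalIntegral.integral_add, intervalIntegral.integral_const_mul, ih (k + 1) (by omega)]
    · simp only [K]
      rw [kap_pos μ (by omega)]
      unfold wh
      have : (2 * Real.pi) ≠ 0 := by positivity
      field_simp
      ring
    · apply Continuous.intervalIntegrable; fun_prop
    · apply Continuous.intervalIntegrable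
      exact hw.mul (Complex.continuous_re.comp ((hz.pow _).mul he))

theorem integral_sq {μ : ℝ} (hμ : 0 < μ) (l : List ℤ) :
    ∫ θ in (-Real.pi)..Real.pi, wt μ θ * ‖ev (zt θ) l‖ ^ 2 =
      (2 * Real.pi) * En (kap μ) (wh μ 0) l := by
  have hw := continuous_wt hμ
  induction l with
  | nil => simp [ev, En]
  | cons x l ih =>
    have hz := continuous_zt
    have he := continuous_ev l
    have h1 : ∀ θ, wt μ θ * ‖ev (zt θ) (x :: l)‖ ^ 2 =
        (x : ℝ) ^ 2 * (wt μ θ * Real.cos ((0:ℕ) * θ)) +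
          (2 * (x : ℝ)) * (wt μ θ * (zt θ ^ 1 * ev (zt θ) l).re) + wt μ θ * ‖ev (zt θ) l‖ ^ 2 := by
      intro θ
      have h2 : ‖ev (zt θ) (x :: l)‖ ^ 2 = (x : ℝ) ^ 2 + 2 * x * (zt θ * ev (zt θ) l).re
          + ‖ev (zt θ) l‖ ^ 2 := by
        simp only [ev]
        have h3 : ‖zt θ * ev (zt θ) l‖ ^ 2 = ‖ev (zt θ) l‖ ^ 2 := by
          rw [norm_mul, norm_zt, one_mul]
        rw [← h3]
        generalize zt θ * ev (zt θ) l = w
        rw [← Complex.normSq_eq_norm_sq, ← Complex.normSq_eq_norm_sq, Complex.normSq_apply,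
          Complex.normSq_apply]
        simp
        ring
      rw [h2]
      simp
      ring
    simp_rw [h1]
    have hi : Continuous (fun θ => wt μ θ * (zt θ ^ 1 * ev (zt θ) l).re) :=
      hw.mul (Complex.continuous_re.comp ((hz.pow _).mul he))
    rw [intervalIntegral.integral_add, intervalIntegral.integral_add,
      intervalIntegral.integral_const_mul, intervalIntegral.integral_const_mul,
      integral_re hμ 1 le_rfl, ih]
    · simp only [En]
      have h4 : ∫ θ in (-Real.pi)..Real.pi, wt μ θ * Real.cos ((0:ℕ) * θ) =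
          (2 * Real.pi) * wh μ 0 := by
        unfold wh
        have : (2 * Real.pi) ≠ 0 := by positivity
        field_simp
      rw [h4]
      ring
    · apply Continuous.intervalIntegrable; fun_prop
    · apply Continuous.intervalIntegrable; exact continuous_const.mul hi
    · apply Continuous.intervalIntegrable
      exact (Continuous.add (by fun_prop) (continuous_const.mul hi))
    · apply Continuous.intervalIntegrable; fun_prop

theorem ev_dla (z : ℂ) (c : ℤ) (l : List ℤ) : ev z (dla c l) = (1 - z) * ev z l - c := by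
  induction l generalizing c with
  | nil => simp [dla, ev]
  | cons x l ih => simp only [dla, ev, ih]; push_cast; ring

theorem ev_dl (z : ℂ) (l : List ℤ) : ev z (dl l) = (1 - z) * ev z l := by
  unfold dl; rw [ev_dla]; simp

theorem ev_dl_iter (z : ℂ) (n : ℕ) (l : List ℤ) : ev z (dl^[n] l) = (1 - z) ^ n * ev z l := by
  induction n with
  | zero => simp
  | succ n ih => rw [Function.iterate_succ_apply', ev_dl, ih]; ring

/-- coefficient list -/
def cl (P : Polynomial ℤ) : List ℤ := (List.range (P.natDegree + 1)).map P.coeff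

theorem ev_range (z : ℂ) (n : ℕ) (f : ℕ → ℤ) :
    ev z ((List.range n).map f) = ∑ i ∈ Finset.range n, (f i : ℂ) * z ^ i := by
  induction n generalizing f with
  | zero => simp [ev]
  | succ n ih =>
    rw [List.range_succ_eq_map, List.map_cons, List.map_map, Finset.sum_range_succ']
    simp only [ev]
    rw [ih, Finset.mul_sum]
    simp only [Function.comp, pow_zero, mul_one]
    rw [add_comm]
    congr 1
    apply Finset.sum_congr rfl
    intro i hi
    ring

theorem ev_cl (z : ℂ) (P : Polynomial ℤ) : ev z (cl P) = Polynomial.aeval z P := by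
  unfold cl
  rw [ev_range, Polynomial.aeval_eq_sum_range]
  apply Finset.sum_congr rfl
  intro i hi
  simp

theorem fnz_cl {P : Polynomial ℤ} (hP : P ≠ 0) : fnz (cl P) ≠ 0 := by
  intro h
  have h1 := fnz_zero_of _ h P.leadingCoeff (by
    unfold cl
    rw [List.mem_map]
    exact ⟨P.natDegree, by simp, rfl⟩)
  exact hP (Polynomial.leadingCoeff_eq_zero.mp h1)

/-- the weighted integral -/
noncomputable def wInt (l : ℝ) (P : Polynomial ℤ) : ℝ :=
  ∫ θ in (-Real.pi)..Real.pi,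
    ‖1 - Complex.exp (θ * Complex.I)‖ ^ (2 * l) *
      ‖Polynomial.aeval (Complex.exp (θ * Complex.I)) P‖ ^ 2

theorem wInt_eq {μ : ℝ} (hμ : 0 < μ) (n : ℕ) (P : Polynomial ℤ) :
    wInt (n + μ) P = (2 * Real.pi) * En (kap μ) (wh μ 0) (dl^[n] (cl P)) := by
  rw [← integral_sq hμ]
  unfold wInt
  apply intervalIntegral.integral_congr
  intro θ hθ
  simp only
  rw [ev_dl_iter, ev_cl]
  have h1 : ‖(1 - zt θ) ^ n * (Polynomial.aeval (zt θ)) P‖ ^ 2 =
      ‖1 - zt θ‖ ^ (2 * (n : ℝ)) * ‖(Polynomial.aeval (zt θ)) P‖ ^ 2 := by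
    rw [norm_mul, mul_pow, norm_pow]
    congr 1
    have : 2 * (n : ℝ) = ((n * 2 : ℕ) : ℝ) := by push_cast; ring
    rw [this, Real.rpow_natCast, pow_mul]
  have h2 : 2 * ((n : ℝ) + μ) = 2 * μ + 2 * n := by ring
  rw [h1, h2, Real.rpow_add_of_nonneg (norm_nonneg _) (by linarith) (by positivity)]
  unfold wt zt
  ring

theorem wInt_lower {μ : ℝ} (hμ : 0 < μ) (hμ1 : μ ≤ 1) (n : ℕ) {P : Polynomial ℤ} (hP : P ≠ 0) :
    (2 * Real.pi) * (2 * ((n + 1 : ℕ) + μ) * wh μ 0 / (1 + μ)) ≤ wInt ((n + 1 : ℕ) + μ) P := by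
  rw [wInt_eq hμ]
  have h := En_lower (kap_nonneg hμ hμ1) (kap_anti hμ hμ1) (tl_rec hμ) (tl_nonneg hμ hμ1) n
    (cl P) (fnz_cl hP)
  rw [tl_one hμ] at h
  have h1 := tl_one hμ
  have h2 := tl_rec hμ 1
  norm_num at h2
  have h3 := kap_one hμ
  have h4 : kap μ 1 = μ * wh μ 0 / (1 + μ) := by
    rw [eq_div_iff (by linarith)]; linarith
  have h5 : tl μ 2 = wh μ 0 / 2 - μ * wh μ 0 / (1 + μ) := by rw [← h4]; linarith
  have h6 : tl μ 1 = wh μ 0 / 2 := by linarith
  rw [h5, h6] at h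
  have h7 : 2 * (wh μ 0 + (n:ℝ) * (wh μ 0 / 2 + (wh μ 0 / 2 - μ * wh μ 0 / (1 + μ)))) =
      (2 * ((n + 1 : ℕ) + μ) * wh μ 0 / (1 + μ)) := by
    have : (1 + μ) ≠ 0 := by linarith
    push_cast
    field_simp
    ring
  rw [← h7]
  exact mul_le_mul_of_nonneg_left h (by positivity)

theorem ER_lower_one {κ T : ℕ → ℝ} (hκ : ∀ n, 0 ≤ κ n) (hanti : ∀ n, 1 ≤ n → κ (n + 1) ≤ κ n)
    (hT : ∀ n, T n = κ n + T (n + 1)) (hT0 : ∀ n, 0 ≤ T n) (l : List ℤ) (hl : fnz l ≠ 0) :
    T 1 ≤ ER κ (T 1) l := by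
  obtain ⟨p, hp, hph, hst⟩ := state_inv hκ hanti hT hT0 l hl
  have hHp := H_nonneg hκ p 1 l
  have hHm := H_nonneg hκ (-p) 1 l
  have hT1 := hT0 1
  have hT2 := hT0 2
  have hN0 : (0:ℝ) ≤ (chg (suf l) : ℝ) := Nat.cast_nonneg _
  have hNN : 0 ≤ (chg (suf l) : ℝ) * (T 1 + T 2) := mul_nonneg hN0 (by linarith)
  rcases hst with ⟨hf, hs, ha | hb⟩ | ⟨hf, hs, hcde⟩
  · linarith
  · linarith
  · rcases hcde with hc | ⟨hd1, hd2⟩ | he
    · nlinarith
    · linarith
    · nlinarith

theorem wInt_lower_zero {μ : ℝ} (hμ : 0 < μ) (hμ1 : μ ≤ 1) {P : Polynomial ℤ} (hP : P ≠ 0) :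
    (2 * Real.pi) * wh μ 0 ≤ wInt μ P := by
  have h0 := wInt_eq hμ 0 P
  norm_num at h0
  rw [h0]
  apply mul_le_mul_of_nonneg_left _ (by positivity)
  have hA := kap_nonneg hμ hμ1
  have hB := kap_anti hμ hμ1
  have hC := tl_rec hμ
  have hD := tl_nonneg hμ hμ1
  have h1 := En_ge_aux hA hC hD (cl P)
  have h2 := Rm_nonneg hD 1 (cl P)
  have h3 := ER_lower_one hA hB hC hD (cl P) (fnz_cl hP)
  have h4 := ER_lower_one hA hB hC hD (cl P).reverse (fnz_reverse _ (fnz_cl hP))
  rw [← EL_eq_ER_reverse] at h4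
  rw [tl_one hμ] at h1
  have h5 := tl_one hμ
  linarith

end Pool.Agent.MP658dbf
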