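import Mathlib

/-!
Combinatorial part: a lower bound for the one-sided energy of an integer list in terms of
the number of sign changes of its suffix sums.
-/

set_option autoImplicit false

namespace Pool.Agent.MP658dbf

/-- `H κ s k l` is the sum of `κ (k + i)` over the indices `i` with `0 < s * l_i`. -/
noncomputable def H (κ : ℕ → ℝ) (s : ℤ) : ℕ → List ℤ → ℝ
  | _, [] => 0
  | k, x :: l => (if 0 < s * x then κ k else 0) + H κ s (k + 1) l

/-- one-sided energy -/
noncomputable def ER (κ : ℕ → ℝ) (w : ℝ) : List ℤ → ℝ
  | [] => 0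
  | x :: l => |(x : ℝ)| * w - x * (H κ 1 1 l - H κ (-1) 1 l) + ER κ w l

/-- first nonzero entry (or zero) -/
def fnz : List ℤ → ℤ
  | [] => 0
  | x :: l => if x ≠ 0 then x else fnz l

/-- suffix sums -/
def suf : List ℤ → List ℤ
  | [] => []
  | x :: l => (x + l.sum) :: suf l

/-- number of sign changes, zeros ignored -/
def chg : List ℤ → ℕ
  | [] => 0
  | x :: l => (if x * fnz l < 0 then 1 else 0) + chg l

section basic

variable {κ : ℕ → ℝ} {T : ℕ → ℝ}

theorem H_nonneg (hκ : ∀ n, 0 ≤ κ n) (s : ℤ) (k : ℕ) (l : List ℤ) : 0 ≤ H κ s k l := by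
  induction l generalizing k with
  | nil => simp [H]
  | cons x l ih =>
    simp only [H]
    have := ih (k + 1)
    split_ifs
    · linarith [hκ k]
    · linarith

theorem H_mono (hanti : ∀ n, 1 ≤ n → κ (n + 1) ≤ κ n) (s : ℤ) (k : ℕ) (hk : 1 ≤ k) (l : List ℤ) :
    H κ s (k + 1) l ≤ H κ s k l := by
  induction l generalizing k with
  | nil => simp [H]
  | cons x l ih =>
    simp only [H]
    have := ih (k + 1) (by omega)
    split_ifs
    · linarith [hanti k hk]
    · linarith

theorem H_add_le (hκ : ∀ n, 0 ≤ κ n) (hT : ∀ n, T n = κ n + T (n + 1)) (hT0 : ∀ n, 0 ≤ T n)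
    (s : ℤ) (k : ℕ) (l : List ℤ) : H κ s k l + H κ (-s) k l ≤ T k := by
  induction l generalizing k with
  | nil => simpa [H] using hT0 k
  | cons x l ih =>
    simp only [H]
    have h1 := ih (k + 1)
    have h2 := hT k
    have h3 := hκ k
    by_cases hx : 0 < s * x
    · have : ¬ (0 < -s * x) := by nlinarith
      simp only [hx, this, if_true, if_false]
      linarith
    · simp only [hx, if_false]
      split_ifs <;> linarith

theorem ER_cons_ge (hκ : ∀ n, 0 ≤ κ n) (hT : ∀ n, T n = κ n + T (n + 1)) (hT0 : ∀ n, 0 ≤ T n)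
    (s x : ℤ) (hs : s = 1 ∨ s = -1) (j : ℕ) (hx : (j : ℤ) ≤ s * x) (l : List ℤ) :
    (j : ℝ) * (T 1 - H κ s 1 l + H κ (-s) 1 l) + ER κ (T 1) l ≤ ER κ (T 1) (x :: l) := by
  have h0 := H_add_le hκ hT hT0 s 1 l
  have h1 := H_nonneg hκ s 1 l
  have h2 := H_nonneg hκ (-s) 1 l
  have hj : (0:ℝ) ≤ j := Nat.cast_nonneg j
  have hx' : (j : ℝ) ≤ (s : ℝ) * x := by exact_mod_cast hx
  have hpos : 0 ≤ T 1 - H κ s 1 l + H κ (-s) 1 l := by linarith
  have key : ((s:ℝ) * x) * (T 1 - H κ s 1 l + H κ (-s) 1 l) + ER κ (T 1) l = ER κ (T 1) (x :: l) := by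
    simp only [ER]
    rcases hs with rfl | rfl
    · have : (0:ℝ) ≤ x := by
        have : (0:ℝ) ≤ ((1:ℤ):ℝ) * x := le_trans hj hx'
        simpa using this
      rw [abs_of_nonneg this]
      push_cast
      ring
    · have : (x:ℝ) ≤ 0 := by
        have : (0:ℝ) ≤ ((-1:ℤ):ℝ) * x := le_trans hj hx'
        push_cast at this
        linarith
      rw [abs_of_nonpos this]
      have e : (-(-1):ℤ) = 1 := by norm_num
      rw [e]
      push_cast
      ring
  rw [← key]
  nlinarith [mul_le_mul_of_nonneg_right hx' hpos]

end basic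

section automaton

/-- phase sign positive side state -/
def StA (κ : ℕ → ℝ) (w1 w2 : ℝ) (p : ℤ) (N : ℕ) (l : List ℤ) : Prop :=
  0 < p * fnz l ∧ 0 < p * l.sum ∧
    (w1 + N * (w1 + w2) + 2 * H κ (-p) 1 l ≤ ER κ w1 l ∨
      w1 + N * (w1 + w2) + w2 + H κ (-p) 1 l ≤ ER κ w1 l)

/-- opposite state -/
def StB (κ : ℕ → ℝ) (w1 w2 k1 : ℝ) (p : ℤ) (N : ℕ) (l : List ℤ) : Prop :=
  0 < -p * fnz l ∧ 0 ≤ p * l.sum ∧
    (w1 + (N + 1) * (w1 + w2) + 2 * H κ p 1 l ≤ ER κ w1 l ∨
      (w1 + N * (w1 + w2) + w1 + H κ p 1 l ≤ ER κ w1 l ∧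
        w1 + N * (w1 + w2) + w1 + H κ p 1 l + H κ (-p) 1 l - k1 ≤ ER κ w1 l) ∨
      w1 + (N + 1) * (w1 + w2) + H κ p 1 l ≤ ER κ w1 l)

theorem fnz_cons_ne {x : ℤ} (hx : x ≠ 0) (l : List ℤ) : fnz (x :: l) = x := by
  simp [fnz, hx]

theorem fnz_cons_zero (l : List ℤ) : fnz (0 :: l) = fnz l := by
  simp [fnz]

variable {κ : ℕ → ℝ} {T : ℕ → ℝ}

theorem ER_zero_cons (w : ℝ) (l : List ℤ) : ER κ w (0 :: l) = ER κ w l := by
  simp [ER]

theorem H_zero_cons (s : ℤ) (k : ℕ) (l : List ℤ) : H κ s k (0 :: l) = H κ s (k + 1) l := by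
  simp [H]

theorem H_cons_of_neg {s x : ℤ} (h : s * x ≤ 0) (k : ℕ) (l : List ℤ) :
    H κ s k (x :: l) = H κ s (k + 1) l := by
  simp [H, not_lt.mpr h]

theorem H_cons_le (hκ : ∀ n, 0 ≤ κ n) (s x : ℤ) (k : ℕ) (l : List ℤ) :
    H κ s k (x :: l) ≤ κ k + H κ s (k + 1) l := by
  simp only [H]
  have := hκ k
  split_ifs <;> linarith

theorem stA_zero (hanti : ∀ n, 1 ≤ n → κ (n + 1) ≤ κ n) {w1 w2 : ℝ} {p : ℤ} {N : ℕ} {l : List ℤ}
    (h : StA κ w1 w2 p N l) : StA κ w1 w2 p N (0 :: l) := by
  obtain ⟨h1, h2, h3⟩ := h
  refine ⟨by simpa [fnz_cons_zero] using h1, by simpa using h2, ?_⟩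
  rw [ER_zero_cons, H_zero_cons]
  have := H_mono hanti (-p) 1 le_rfl l
  rcases h3 with h3 | h3
  · left; linarith
  · right; linarith

theorem stB_zero (hanti : ∀ n, 1 ≤ n → κ (n + 1) ≤ κ n) {w1 w2 k1 : ℝ} {p : ℤ} {N : ℕ}
    {l : List ℤ} (h : StB κ w1 w2 k1 p N l) : StB κ w1 w2 k1 p N (0 :: l) := by
  obtain ⟨h1, h2, h3⟩ := h
  refine ⟨by simpa [fnz_cons_zero] using h1, by simpa using h2, ?_⟩
  rw [ER_zero_cons, H_zero_cons, H_zero_cons]
  have := H_mono hanti (-p) 1 le_rfl l
  have := H_mono hanti p 1 le_rfl l
  rcases h3 with h3 | h3 | h3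
  · left; linarith
  · right; left; exact ⟨by linarith, by linarith⟩
  · right; right; linarith

theorem fnz_suf_cons (x : ℤ) (l : List ℤ) :
    fnz (suf (x :: l)) = if x + l.sum ≠ 0 then x + l.sum else fnz (suf l) := rfl

theorem chg_suf_cons (x : ℤ) (l : List ℤ) :
    chg (suf (x :: l)) = (if (x + l.sum) * fnz (suf l) < 0 then 1 else 0) + chg (suf l) := rfl

theorem fnz_zero_of (l : List ℤ) (h : fnz l = 0) : ∀ x ∈ l, x = 0 := by
  induction l with
  | nil => simp
  | cons y l ih =>
    by_cases hy : y = 0
    · subst hy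
      rw [fnz_cons_zero] at h
      intro x hx
      rcases List.mem_cons.mp hx with rfl | hx
      · rfl
      · exact ih h x hx
    · rw [fnz_cons_ne hy] at h
      exact absurd h hy

theorem allzero_facts (l : List ℤ) (h : ∀ x ∈ l, x = 0) :
    l.sum = 0 ∧ fnz (suf l) = 0 ∧ chg (suf l) = 0 ∧ (∀ κ s k, H κ s k l = 0) ∧
      (∀ κ w, ER κ w l = 0) := by
  induction l with
  | nil => simp [suf, fnz, chg, H, ER]
  | cons y l ih =>
    have hy : y = 0 := h y (by simp)
    subst hy
    obtain ⟨h1, h2, h3, h4, h5⟩ := ih (fun x hx => h x (by simp [hx]))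
    refine ⟨by simpa using h1, ?_, ?_, ?_, ?_⟩
    · rw [fnz_suf_cons]; simp [h1, h2]
    · rw [chg_suf_cons]; simp [h1, h2, h3]
    · intro κ s k; rw [H_zero_cons]; exact h4 _ _ _
    · intro κ w; rw [ER_zero_cons]; exact h5 _ _

/-- the states propagate -/
theorem state_inv (hκ : ∀ n, 0 ≤ κ n) (hanti : ∀ n, 1 ≤ n → κ (n + 1) ≤ κ n)
    (hT : ∀ n, T n = κ n + T (n + 1)) (hT0 : ∀ n, 0 ≤ T n) (l : List ℤ) (hl : fnz l ≠ 0) :
    ∃ p : ℤ, (p = 1 ∨ p = -1) ∧ 0 < p * fnz (suf l) ∧
      (StA κ (T 1) (T 2) p (chg (suf l)) l ∨ StB κ (T 1) (T 2) (κ 1) p (chg (suf l)) l) := by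
  induction l with
  | nil => simp [fnz] at hl
  | cons x l ih =>
    have hT1 := hT 1
    norm_num at hT1
    have hk1 := hκ 1
    have hT2 := hT0 2
    by_cases hl0 : fnz l = 0
    · -- all zeros behind
      have hz := fnz_zero_of l hl0
      obtain ⟨h1, h2, h3, h4, h5⟩ := allzero_facts l hz
      have hx : x ≠ 0 := by
        rintro rfl
        rw [fnz_cons_zero] at hl
        exact hl hl0
      obtain ⟨p, hp, hpx⟩ : ∃ p : ℤ, (p = 1 ∨ p = -1) ∧ 0 < p * x := by
        rcases lt_or_gt_of_ne hx with h | h
        · exact ⟨-1, Or.inr rfl, by linarith⟩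
        · exact ⟨1, Or.inl rfl, by linarith⟩
      have hge := ER_cons_ge hκ hT hT0 p x hp 1 (by push_cast; linarith [Int.add_one_le_iff.mpr hpx]) l
      rw [h4, h4, h5] at hge
      refine ⟨p, hp, ?_, Or.inl ⟨?_, ?_, Or.inl ?_⟩⟩
      · rw [fnz_suf_cons, h1]; simpa [hx] using hpx
      · rw [fnz_cons_ne hx]; exact hpx
      · simpa [h1] using hpx
      · rw [chg_suf_cons, h2, h3]
        rw [H_cons_of_neg (by nlinarith) 1 l, h4]
        push_cast at hge
        simp
        linarith
    · obtain ⟨p, hp, hph, hst⟩ := ih hl0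
      have hpp : p * p = 1 := by rcases hp with rfl | rfl <;> norm_num
      have hp' : -p = 1 ∨ -p = -1 := by rcases hp with rfl | rfl <;> simp
      have hS := H_add_le hκ hT hT0 p 1 l
      have hHp := H_nonneg hκ p 1 l
      have hHm := H_nonneg hκ (-p) 1 l
      have hMp := H_mono hanti p 1 le_rfl l
      have hMm := H_mono hanti (-p) 1 le_rfl l
      have hN0 : (0:ℝ) ≤ (chg (suf l) : ℝ) := Nat.cast_nonneg _
      rcases lt_trichotomy (p * x) 0 with hx | hx | hx
      · -- x of sign opposite to the phase
        have hx0 : x ≠ 0 := by rintro rfl; simp at hx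
        have hfx : 0 < -p * x := by linarith
        have hHpx : H κ p 1 (x :: l) = H κ p 2 l := H_cons_of_neg hx.le 1 l
        have hHmx : H κ (-p) 1 (x :: l) ≤ κ 1 + H κ (-p) 2 l := H_cons_le hκ (-p) x 1 l
        norm_num at hMp hMm
        -- a general finishing lemma for the case where the strong inequality holds
        have finish : ((T 1) + ((chg (suf l) : ℝ) + 1) * (T 1 + T 2) + 2 * H κ p 1 l
              ≤ ER κ (T 1) (x :: l)) → (0 ≤ p * l.sum) →
            ∃ p : ℤ, (p = 1 ∨ p = -1) ∧ 0 < p * fnz (suf (x :: l)) ∧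
              (StA κ (T 1) (T 2) p (chg (suf (x :: l))) (x :: l) ∨
                StB κ (T 1) (T 2) (κ 1) p (chg (suf (x :: l))) (x :: l)) := by
          intro hE hσ
          by_cases hc : 0 ≤ p * (x + l.sum)
          · -- no crossing
            have hnc : ¬ ((x + l.sum) * fnz (suf l) < 0) := by
              intro hlt
              have h1 : (x + l.sum) * fnz (suf l) = (p * (x + l.sum)) * (p * fnz (suf l)) := by
                linear_combination (-(x + l.sum) * fnz (suf l)) * hpp
              rw [h1] at hlt
              have := mul_nonneg hc hph.le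
              linarith
            refine ⟨p, hp, ?_, Or.inr ⟨?_, ?_, Or.inl ?_⟩⟩
            · rw [fnz_suf_cons]
              split_ifs with h0
              · rcases hc.lt_or_eq with h | h
                · exact h
                · exfalso; apply h0
                  have : p * (p * (x + l.sum)) = 0 := by rw [← h]; ring
                  linear_combination this - (x + l.sum) * hpp
              · exact hph
            · rw [fnz_cons_ne hx0]; exact hfx
            · simpa using hc
            · rw [chg_suf_cons, if_neg hnc, hHpx]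
              simp only [zero_add]
              linarith
          · -- crossing
            push Not at hc
            have hcr : (x + l.sum) * fnz (suf l) < 0 := by
              have h1 : (x + l.sum) * fnz (suf l) = (p * (x + l.sum)) * (p * fnz (suf l)) := by
                linear_combination (-(x + l.sum) * fnz (suf l)) * hpp
              rw [h1]
              exact mul_neg_of_neg_of_pos hc hph
            have h0 : x + l.sum ≠ 0 := by
              intro h; rw [h] at hc; simp at hc
            refine ⟨-p, hp', ?_, Or.inl ⟨?_, ?_, Or.inl ?_⟩⟩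
            · rw [fnz_suf_cons, if_pos h0]; linarith
            · rw [fnz_cons_ne hx0]; exact hfx
            · simp only [List.sum_cons]; linarith
            · rw [chg_suf_cons, if_pos hcr, neg_neg, hHpx]
              push_cast
              linarith
        rcases hst with ⟨hf, hs, hab⟩ | ⟨hf, hs, hcde⟩
        · -- new block
          by_cases hone : -p * x = 1
          · -- single unit: no crossing possible
            have hge := ER_cons_ge hκ hT hT0 (-p) x hp' 1 (by rw [hone]; norm_num) l
            rw [neg_neg] at hge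
            push_cast at hge
            have hc : 0 ≤ p * (x + l.sum) := by
              have : p * (x + l.sum) = -1 + p * l.sum := by linear_combination (-1) * hone
              rw [this]; linarith [Int.add_one_le_iff.mpr hs]
            have hnc : ¬ ((x + l.sum) * fnz (suf l) < 0) := by
              intro hlt
              have h1 : (x + l.sum) * fnz (suf l) = (p * (x + l.sum)) * (p * fnz (suf l)) := by
                linear_combination (-(x + l.sum) * fnz (suf l)) * hpp
              rw [h1] at hlt
              have := mul_nonneg hc hph.le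
              linarith
            refine ⟨p, hp, ?_, Or.inr ⟨?_, ?_, ?_⟩⟩
            · rw [fnz_suf_cons]
              split_ifs with h0
              · rcases hc.lt_or_eq with h | h
                · exact h
                · exfalso; apply h0
                  have : p * (p * (x + l.sum)) = 0 := by rw [← h]; ring
                  linear_combination this - (x + l.sum) * hpp
              · exact hph
            · rw [fnz_cons_ne hx0]; exact hfx
            · simpa using hc
            · rw [chg_suf_cons, if_neg hnc, hHpx]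
              simp only [zero_add]
              rcases hab with ha | hb
              · right; left
                constructor
                · linarith
                · linarith
              · right; right
                linarith
          · have h2 : 2 ≤ -p * x := by omega
            have hge := ER_cons_ge hκ hT hT0 (-p) x hp' 2 (by exact_mod_cast h2) l
            rw [neg_neg] at hge
            push_cast at hge
            apply finish _ hs.le
            rcases hab with ha | hb
            · linarith
            · linarith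
        · have hge := ER_cons_ge hκ hT hT0 (-p) x hp' 1 (by push_cast; linarith [Int.add_one_le_iff.mpr hfx]) l
          rw [neg_neg] at hge
          push_cast at hge
          apply finish _ hs
          rcases hcde with hc | ⟨hd1, hd2⟩ | he
          · linarith
          · linarith
          · linarith
      · -- x = 0
        have hx0 : x = 0 := by
          have : p * (p * x) = 0 := by rw [hx]; ring
          linear_combination this - x * hpp
        subst hx0
        have hσ : 0 ≤ p * l.sum := by
          rcases hst with h | h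
          · exact h.2.1.le
          · exact h.2.1
        have hnc : ¬ ((0 + l.sum) * fnz (suf l) < 0) := by
          intro hlt
          have h1 : (0 + l.sum) * fnz (suf l) = (p * (l.sum)) * (p * fnz (suf l)) := by
            linear_combination (-(l.sum) * fnz (suf l)) * hpp
          rw [h1] at hlt
          have := mul_nonneg hσ hph.le
          linarith
        refine ⟨p, hp, ?_, ?_⟩
        · rw [fnz_suf_cons]
          split_ifs with h0
          · simp only [zero_add] at h0 ⊢
            rcases hσ.lt_or_eq with h | h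
            · exact h
            · exfalso; apply h0
              have : p * (p * (l.sum)) = 0 := by rw [← h]; ring
              linear_combination this - (l.sum) * hpp
          · exact hph
        · rw [chg_suf_cons, if_neg hnc, zero_add]
          rcases hst with h | h
          · left; exact stA_zero hanti h
          · right; exact stB_zero hanti h
      · -- x of the sign of the phase
        have hx0 : x ≠ 0 := by rintro rfl; simp at hx
        have hHmx : H κ (-p) 1 (x :: l) = H κ (-p) 2 l := H_cons_of_neg (by linarith) 1 l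
        norm_num at hMp hMm
        have hge := ER_cons_ge hκ hT hT0 p x hp 1 (by push_cast; linarith [Int.add_one_le_iff.mpr hx]) l
        push_cast at hge
        have hσ : 0 ≤ p * l.sum := by
          rcases hst with h | h
          · exact h.2.1.le
          · exact h.2.1
        have hσ' : 0 < p * (x + l.sum) := by linarith
        have h0 : x + l.sum ≠ 0 := by
          intro h; rw [h] at hσ'; simp at hσ'
        have hnc : ¬ ((x + l.sum) * fnz (suf l) < 0) := by
          intro hlt
          have h1 : (x + l.sum) * fnz (suf l) = (p * (x + l.sum)) * (p * fnz (suf l)) := by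
            linear_combination (-(x + l.sum) * fnz (suf l)) * hpp
          rw [h1] at hlt
          have := mul_nonneg hσ'.le hph.le
          linarith
        refine ⟨p, hp, ?_, Or.inl ⟨?_, ?_, ?_⟩⟩
        · rw [fnz_suf_cons, if_pos h0]; exact hσ'
        · rw [fnz_cons_ne hx0]; exact hx
        · simpa using hσ'
        · rw [chg_suf_cons, if_neg hnc, hHmx]
          simp only [zero_add]
          rcases hst with ⟨hf, hs, hab⟩ | ⟨hf, hs, hcde⟩
          · left
            rcases hab with ha | hb
            · linarith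
            · linarith
          · right
            rcases hcde with hc | ⟨hd1, hd2⟩ | he
            · linarith
            · linarith
            · linarith

theorem ER_lower (hκ : ∀ n, 0 ≤ κ n) (hanti : ∀ n, 1 ≤ n → κ (n + 1) ≤ κ n)
    (hT : ∀ n, T n = κ n + T (n + 1)) (hT0 : ∀ n, 0 ≤ T n) (l : List ℤ) (hl : fnz l ≠ 0)
    (hsum : l.sum = 0) :
    2 * T 1 + (chg (suf l) : ℝ) * (T 1 + T 2) ≤ ER κ (T 1) l := by
  obtain ⟨p, hp, hph, hst⟩ := state_inv hκ hanti hT hT0 l hl
  have hHp := H_nonneg hκ p 1 l
  have hHm := H_nonneg hκ (-p) 1 l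
  have hT2 := hT0 2
  have hT1 := hT 1
  norm_num at hT1
  have hk1 := hκ 1
  rcases hst with ⟨hf, hs, hab⟩ | ⟨hf, hs, hcde⟩
  · rw [hsum] at hs; simp at hs
  · rcases hcde with hc | ⟨hd1, hd2⟩ | he
    · linarith
    · linarith
    · linarith

end automaton

end Pool.Agent.MP658dbf
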