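import Pool.Agent.Lib.MP_658dbf_an.Comb

/-!
Energy of an integer list, its two one-sided parts, reversal, and iterated differences.
-/

set_option autoImplicit false

namespace Pool.Agent.MP658dbf

/-- weighted sum of the entries -/
noncomputable def K (κ : ℕ → ℝ) : ℕ → List ℤ → ℝ
  | _, [] => 0
  | k, x :: l => κ k * x + K κ (k + 1) l

/-- weighted sum of the signs -/
noncomputable def Sg (κ : ℕ → ℝ) : ℕ → List ℤ → ℝ
  | _, [] => 0
  | k, x :: l => κ k * (x.sign : ℤ) + Sg κ (k + 1) l

/-- the full energy -/
noncomputable def En (κ : ℕ → ℝ) (W : ℝ) : List ℤ → ℝ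
  | [] => 0
  | x :: l => W * (x : ℝ) ^ 2 - 2 * x * K κ 1 l + En κ W l

/-- the left one-sided energy -/
noncomputable def EL (κ : ℕ → ℝ) (w : ℝ) : List ℤ → ℝ
  | [] => 0
  | x :: l => |(x : ℝ)| * w - (x.sign : ℤ) * K κ 1 l + EL κ w l

/-- remainder -/
noncomputable def Rm (T : ℕ → ℝ) : ℕ → List ℤ → ℝ
  | _, [] => 0
  | k, x :: l => T k * ((x : ℝ) ^ 2 - |(x : ℝ)|) + Rm T (k + 1) l

variable {κ : ℕ → ℝ} {T : ℕ → ℝ}

theorem H_sub_eq (k : ℕ) (l : List ℤ) : H κ 1 k l - H κ (-1) k l = Sg κ k l := by
  induction l generalizing k with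
  | nil => simp [H, Sg]
  | cons x l ih =>
    simp only [H, Sg]
    rw [← ih (k + 1)]
    rcases lt_trichotomy x 0 with h | h | h
    · have h1 : ¬ (0 < 1 * x) := by linarith
      have h2 : 0 < -1 * x := by linarith
      rw [if_neg h1, if_pos h2, Int.sign_eq_neg_one_of_neg h]
      push_cast; ring
    · subst h; simp
    · have h1 : (0 < 1 * x) := by linarith
      have h2 : ¬ 0 < -1 * x := by linarith
      rw [if_pos h1, if_neg h2, Int.sign_eq_one_of_pos h]
      push_cast; ring

theorem ER_cons (w : ℝ) (x : ℤ) (l : List ℤ) :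
    ER κ w (x :: l) = |(x : ℝ)| * w - x * Sg κ 1 l + ER κ w l := by
  simp only [ER, H_sub_eq]

theorem int_sq_ge_abs (x : ℤ) : |(x : ℝ)| ≤ (x : ℝ) ^ 2 := by
  have h : |x| ≤ x ^ 2 := by
    rcases eq_or_ne x 0 with rfl | hx
    · simp
    · have h1 : 1 ≤ |x| := Int.one_le_abs hx
      have h2 : x ^ 2 = |x| * |x| := by rw [abs_mul_abs_self]; ring
      rw [h2]; nlinarith
  exact_mod_cast h

theorem pair_ineq (x y : ℤ) :
    2 * (x : ℝ) * y - x * (y.sign : ℤ) - (x.sign : ℤ) * y
      ≤ ((x : ℝ) ^ 2 - |(x : ℝ)|) + ((y : ℝ) ^ 2 - |(y : ℝ)|) := by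
  have hx := int_sq_ge_abs x
  have hy := int_sq_ge_abs y
  rcases lt_trichotomy x 0 with h | h | h
  · rcases lt_trichotomy y 0 with g | g | g
    · rw [Int.sign_eq_neg_one_of_neg h, Int.sign_eq_neg_one_of_neg g]
      have h' : (x : ℝ) < 0 := by exact_mod_cast h
      have g' : (y : ℝ) < 0 := by exact_mod_cast g
      rw [abs_of_neg h', abs_of_neg g']
      push_cast
      nlinarith [sq_nonneg ((x : ℝ) - y)]
    · subst g; simp; linarith
    · rw [Int.sign_eq_neg_one_of_neg h, Int.sign_eq_one_of_pos g]
      have h' : (x : ℝ) ≤ -1 := by exact_mod_cast (by omega : x ≤ -1)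
      have g' : (1 : ℝ) ≤ (y : ℝ) := by exact_mod_cast (by omega : 1 ≤ y)
      push_cast
      nlinarith
  · subst h; simp; linarith
  · rcases lt_trichotomy y 0 with g | g | g
    · rw [Int.sign_eq_one_of_pos h, Int.sign_eq_neg_one_of_neg g]
      have h' : (y : ℝ) ≤ -1 := by exact_mod_cast (by omega : y ≤ -1)
      have g' : (1 : ℝ) ≤ (x : ℝ) := by exact_mod_cast (by omega : 1 ≤ x)
      push_cast
      nlinarith
    · subst g; simp; linarith
    · rw [Int.sign_eq_one_of_pos h, Int.sign_eq_one_of_pos g]
      have h' : 0 < (x : ℝ) := by exact_mod_cast h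
      have g' : 0 < (y : ℝ) := by exact_mod_cast g
      rw [abs_of_pos h', abs_of_pos g']
      push_cast
      nlinarith [sq_nonneg ((x : ℝ) - y)]

theorem cross_ineq (hκ : ∀ n, 0 ≤ κ n) (hT : ∀ n, T n = κ n + T (n + 1)) (hT0 : ∀ n, 0 ≤ T n)
    (x : ℤ) (k : ℕ) (l : List ℤ) :
    2 * (x : ℝ) * K κ k l - x * Sg κ k l - (x.sign : ℤ) * K κ k l
      ≤ T k * ((x : ℝ) ^ 2 - |(x : ℝ)|) + Rm T k l - Rm T (k + 1) l := by
  induction l generalizing k with
  | nil =>
    simp only [K, Sg, Rm]
    have := mul_nonneg (hT0 k) (sub_nonneg.mpr (int_sq_ge_abs x))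
    linarith
  | cons y l ih =>
    simp only [K, Sg, Rm]
    have h1 := ih (k + 1)
    have h2 := mul_le_mul_of_nonneg_left (pair_ineq x y) (hκ k)
    have h3 := hT k
    rw [h3]
    nlinarith

theorem Rm_nonneg (hT0 : ∀ n, 0 ≤ T n) (k : ℕ) (l : List ℤ) : 0 ≤ Rm T k l := by
  induction l generalizing k with
  | nil => simp [Rm]
  | cons y l ih =>
    simp only [Rm]
    have h1 := ih (k + 1)
    have := mul_nonneg (hT0 k) (sub_nonneg.mpr (int_sq_ge_abs y))
    linarith

theorem En_ge_aux (hκ : ∀ n, 0 ≤ κ n) (hT : ∀ n, T n = κ n + T (n + 1)) (hT0 : ∀ n, 0 ≤ T n)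
    (l : List ℤ) : ER κ (T 1) l + EL κ (T 1) l + Rm T 1 l ≤ En κ (2 * T 1) l := by
  induction l with
  | nil => simp [ER, EL, Rm, En]
  | cons x l ih =>
    rw [ER_cons]
    simp only [EL, Rm, En]
    have h1 := cross_ineq hκ hT hT0 x 1 l
    have h2 := mul_nonneg (hT0 1) (sub_nonneg.mpr (int_sq_ge_abs x))
    linarith

theorem Sg_append (k : ℕ) (l : List ℤ) (x : ℤ) :
    Sg κ k (l ++ [x]) = Sg κ k l + κ (k + l.length) * (x.sign : ℤ) := by
  induction l generalizing k with
  | nil => simp [Sg]
  | cons y l ih =>
    simp only [List.cons_append, Sg, ih (k + 1), List.length_cons]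
    have : k + 1 + l.length = k + (l.length + 1) := by ring
    rw [this]; ring

theorem K_append (k : ℕ) (l : List ℤ) (x : ℤ) :
    K κ k (l ++ [x]) = K κ k l + κ (k + l.length) * x := by
  induction l generalizing k with
  | nil => simp [K]
  | cons y l ih =>
    simp only [List.cons_append, K, ih (k + 1), List.length_cons]
    have : k + 1 + l.length = k + (l.length + 1) := by ring
    rw [this]; ring

theorem ER_append (w : ℝ) (l : List ℤ) (x : ℤ) :
    ER κ w (l ++ [x]) = ER κ w l + |(x : ℝ)| * w - (x.sign : ℤ) * K κ 1 l.reverse := by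
  induction l with
  | nil => simp [ER, K, H]
  | cons y l ih =>
    rw [List.cons_append, ER_cons, ER_cons, ih, Sg_append, List.reverse_cons, K_append,
      List.length_reverse]
    ring

theorem EL_eq_ER_reverse (w : ℝ) (l : List ℤ) : EL κ w l = ER κ w l.reverse := by
  induction l with
  | nil => simp [EL, ER]
  | cons x l ih =>
    rw [List.reverse_cons, ER_append, List.reverse_reverse, ← ih]
    simp only [EL]
    ring

/-- first difference (multiplication by `1 - z` of the coefficient list) -/
def dla : ℤ → List ℤ → List ℤ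
  | c, [] => [-c]
  | c, x :: l => (x - c) :: dla x l

/-- coefficient list of `(1 - z) * p` -/
def dl (p : List ℤ) : List ℤ := dla 0 p

theorem dla_sum (c : ℤ) (l : List ℤ) : (dla c l).sum = -c := by
  induction l generalizing c with
  | nil => simp [dla]
  | cons x l ih =>
    simp only [dla, List.sum_cons, ih]
    ring

theorem suf_dla (c : ℤ) (l : List ℤ) : suf (dla c l) = (-c) :: l.map (fun x => -x) := by
  induction l generalizing c with
  | nil => simp [dla, suf]
  | cons x l ih =>
    simp only [dla, suf, ih, dla_sum, List.map_cons]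
    congr 1
    ring

theorem fnz_neg (l : List ℤ) : fnz (l.map (fun x => -x)) = -fnz l := by
  induction l with
  | nil => simp [fnz]
  | cons x l ih =>
    by_cases hx : x = 0
    · subst hx; simp [fnz, ih]
    · simp [fnz, hx]

theorem chg_neg (l : List ℤ) : chg (l.map (fun x => -x)) = chg l := by
  induction l with
  | nil => simp
  | cons x l ih =>
    simp only [List.map_cons, chg, ih, fnz_neg]
    simp

theorem fnz_dla (c : ℤ) (l : List ℤ) (hc : c = 0) : fnz (dla c l) = fnz l := by
  induction l generalizing c with
  | nil => simp [dla, fnz, hc]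
  | cons x l ih =>
    subst hc
    by_cases hx : x = 0
    · subst hx
      simp only [dla]
      rw [sub_self, fnz_cons_zero, fnz_cons_zero]
      exact ih 0 rfl
    · simp [dla, fnz, hx]

theorem suf_head (l : List ℤ) : l.sum ≠ 0 → fnz (suf l) = l.sum := by
  intro h
  cases l with
  | nil => simp at h
  | cons x l =>
    rw [fnz_suf_cons]
    simp only [List.sum_cons] at h ⊢
    rw [if_pos h]

theorem fnz_of_fnz_suf (l : List ℤ) (h : fnz (suf l) ≠ 0) : fnz l ≠ 0 := by
  intro h0
  exact h (allzero_facts l (fnz_zero_of l h0)).2.1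

/-- discrete Rolle -/
theorem rolle (l : List ℤ) :
    chg (suf l) + (if fnz (suf l) * fnz l < 0 then 1 else 0) ≤ chg l := by
  induction l with
  | nil => simp [suf, fnz, chg]
  | cons x l ih =>
    rw [chg_suf_cons]
    simp only [chg]
    have hσP : l.sum ≠ 0 → fnz (suf l) = l.sum := suf_head l
    have hPF := fnz_of_fnz_suf l
    have hall : fnz (suf l) = 0 → l.sum = 0 := by
      intro h
      by_contra h1
      exact h1 ((hσP h1).symm.trans h)
    rw [fnz_suf_cons]
    generalize fnz (suf l) = P at *
    generalize hS : l.sum = S at *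
    -- the local inequality
    have key : (if (x + S) * P < 0 then 1 else 0) +
        (if (if x + S ≠ 0 then x + S else P) * fnz (x :: l) < 0 then 1 else 0)
        ≤ (if P * fnz l < 0 then 1 else 0) + (if x * fnz l < 0 then 1 else 0) := by
      by_cases hx : x = 0
      · subst hx
        rw [fnz_cons_zero, zero_add]
        have h1 : ¬ (S * P < 0) := by
          by_cases h : S = 0
          · subst h; simp
          · rw [hσP h]; push Not; exact mul_self_nonneg S
        rw [if_neg h1]
        have h2 : (if S ≠ 0 then S else P) = P := by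
          split_ifs with h
          · exact (hσP h).symm
          · rfl
        rw [h2]
        simp
      · rw [fnz_cons_ne hx]
        by_cases hP : P = 0
        · subst hP
          have hS0 := hall rfl
          subst hS0
          simp only [add_zero, mul_zero, lt_irrefl, if_false]
          rw [if_pos hx]
          have : ¬ (x * x < 0) := by push Not; exact mul_self_nonneg x
          simp [this]
        · have hF := hPF hP
          have hSP : 0 ≤ S * P := by
            by_cases h : S = 0
            · subst h; simp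
            · rw [hσP h]; exact mul_self_nonneg S
          generalize fnz l = F at *
          -- it suffices: LHS ≤ 1 and LHS = 1 → x * P < 0
          have hxP : x * P < 0 →
              1 ≤ (if P * F < 0 then 1 else 0) + (if x * F < 0 then 1 else 0) := by
            intro h
            rcases lt_or_gt_of_ne (mul_ne_zero hP hF) with h1 | h1
            · rw [if_pos h1]; omega
            · have : x * F < 0 := by
                by_contra hcon
                push Not at hcon
                have h2 : 0 < P * P := mul_self_pos.mpr hP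
                nlinarith [mul_nonneg hcon h1.le, mul_pos h1 h2, mul_pos_of_neg_of_neg h (neg_neg_of_pos h1)]
              rw [if_pos this]; omega
          by_cases h1 : (x + S) * P < 0
          · have hxPn : x * P < 0 := by nlinarith
            have h0 : x + S ≠ 0 := by rintro h; rw [h] at h1; simp at h1
            have h2 : ¬ ((x + S) * x < 0) := by
              push Not
              -- (x+S) and x both opposite to P
              by_contra hcon
              push Not at hcon
              have h3 : 0 < ((x + S) * P) * (x * P) := mul_pos_of_neg_of_neg h1 hxPn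
              have h4 : ((x + S) * P) * (x * P) = ((x + S) * x) * (P * P) := by ring
              rw [h4] at h3
              have h5 : 0 < P * P := mul_self_pos.mpr hP
              nlinarith
            rw [if_pos h1, if_pos h0, if_neg h2]
            exact hxP hxPn
          · rw [if_neg h1, zero_add]
            by_cases h0 : x + S = 0
            · have hPP : (if x + S ≠ 0 then x + S else P) = P := by simp [h0]
              rw [hPP]
              by_cases h2 : P * x < 0
              · rw [if_pos h2]
                exact hxP (by linarith [mul_comm P x])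
              · rw [if_neg h2]; omega
            · rw [if_pos h0]
              by_cases h2 : (x + S) * x < 0
              · rw [if_pos h2]
                apply hxP
                have h3 : 0 ≤ (x + S) * P := not_lt.mp h1
                have h4 : (x + S) * P ≠ 0 := mul_ne_zero h0 hP
                have h5 : 0 < (x + S) * P := lt_of_le_of_ne h3 (Ne.symm h4)
                by_contra hcon
                push Not at hcon
                have h6 : ((x + S) * x) * ((x + S) * P) < 0 := mul_neg_of_neg_of_pos h2 h5
                have h7 : ((x + S) * x) * ((x + S) * P) = (x * P) * ((x + S) * (x + S)) := by ring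
                rw [h7] at h6
                have h8 : 0 ≤ (x + S) * (x + S) := mul_self_nonneg _
                nlinarith [mul_nonneg hcon h8]
              · rw [if_neg h2]; omega
    omega

theorem chg_dl (p : List ℤ) (hp : fnz p ≠ 0) : chg p + 1 ≤ chg (dl p) := by
  have h := rolle (dl p)
  have h1 : suf (dl p) = 0 :: p.map (fun x => -x) := by simpa [dl] using suf_dla 0 p
  rw [h1] at h
  have h2 : fnz (0 :: p.map (fun x => -x)) = - fnz p := by rw [fnz_cons_zero, fnz_neg]
  have h3 : fnz (dl p) = fnz p := fnz_dla 0 p rfl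
  have h4 : chg (0 :: p.map (fun x => -x)) = chg p := by
    simp only [chg, chg_neg]; simp
  rw [h2, h3, h4] at h
  have h5 : -fnz p * fnz p < 0 := by
    have := mul_self_pos.mpr hp
    linarith
  rw [if_pos h5] at h
  exact h

theorem fnz_dl (p : List ℤ) : fnz (dl p) = fnz p := fnz_dla 0 p rfl

theorem chg_iter (n : ℕ) (p : List ℤ) (hp : fnz p ≠ 0) :
    fnz (dl^[n] p) ≠ 0 ∧ n ≤ chg (dl^[n] p) := by
  induction n with
  | zero => simpa using hp
  | succ n ih =>
    rw [Function.iterate_succ_apply']
    refine ⟨by rw [fnz_dl]; exact ih.1, ?_⟩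
    have := chg_dl _ ih.1
    omega

theorem dl_neg_aux (c : ℤ) (p : List ℤ) :
    dla (-c) (p.map (fun x => -x)) = (dla c p).map (fun x => -x) := by
  induction p generalizing c with
  | nil => simp [dla]
  | cons x l ih =>
    simp only [List.map_cons, dla, ih]
    simp; ring

theorem dl_neg (p : List ℤ) : dl (p.map (fun x => -x)) = (dl p).map (fun x => -x) := by
  have := dl_neg_aux 0 p
  simpa [dl] using this

theorem dla_append (c : ℤ) (p : List ℤ) (x : ℤ) :
    dla c (p ++ [x]) = (dla c p).dropLast ++ [x - (c :: p).getLast (by simp), -x] := by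
  induction p generalizing c with
  | nil => simp [dla]
  | cons y l ih =>
    simp only [List.cons_append, dla, ih]
    have hne : dla y l ≠ [] := by cases l <;> simp [dla]
    rw [List.dropLast_cons_of_ne_nil hne]
    simp

theorem dla_eq_zip (c : ℤ) (p : List ℤ) :
    dla c p = List.zipWith (fun a b => a - b) (p ++ [0]) (c :: p) := by
  induction p generalizing c with
  | nil => simp [dla]
  | cons x l ih => simp [dla, ih]

theorem dl_reverse (p : List ℤ) : (dl p).reverse = dl ((p.reverse).map (fun x => -x)) := by
  rw [dl_neg]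
  unfold dl
  rw [dla_eq_zip, dla_eq_zip, List.reverse_zipWith (by simp)]
  simp only [List.reverse_append, List.reverse_cons, List.reverse_nil, List.nil_append,
    List.cons_append, List.map_zipWith]
  rw [List.zipWith_comm]
  congr 1
  funext a b
  ring

theorem fnz_reverse (l : List ℤ) (h : fnz l ≠ 0) : fnz l.reverse ≠ 0 := by
  intro h0
  have h1 := fnz_zero_of _ h0
  have h2 : ∀ x ∈ l, x = 0 := fun x hx => h1 x (by simpa using hx)
  have : ∀ l : List ℤ, (∀ x ∈ l, x = 0) → fnz l = 0 := by
    intro l
    induction l with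
    | nil => simp [fnz]
    | cons y l ih =>
      intro h
      have hy : y = 0 := h y (by simp)
      subst hy
      rw [fnz_cons_zero]
      exact ih (fun x hx => h x (by simp [hx]))
  exact h (this l h2)

theorem iter_reverse (n : ℕ) (p : List ℤ) (hp : fnz p ≠ 0) :
    ∃ p', fnz p' ≠ 0 ∧ (dl^[n] p).reverse = dl^[n] p' := by
  induction n generalizing p with
  | zero => exact ⟨p.reverse, fnz_reverse p hp, rfl⟩
  | succ n ih =>
    rw [Function.iterate_succ_apply]
    obtain ⟨p', hp', h⟩ := ih (dl p) (by rw [fnz_dl]; exact hp)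
    -- rather peel from the outside
    clear h hp' p' ih
    have gen : ∀ m (q : List ℤ), (dl^[m] q).reverse = dl^[m] ((q.reverse).map (fun x => (-1)^m * x)) := by
      intro m
      induction m with
      | zero => intro q; simp
      | succ m ihm =>
        intro q
        rw [Function.iterate_succ_apply', dl_reverse, ihm, Function.iterate_succ_apply']
        have hneg : ∀ (m : ℕ) (q : List ℤ), (dl^[m] q).map (fun x => -x) = dl^[m] (q.map (fun x => -x)) := by
          intro m
          induction m with
          | zero => intro q; simp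
          | succ m ih2 => intro q; rw [Function.iterate_succ_apply', ← dl_neg, ih2, Function.iterate_succ_apply']
        rw [hneg, List.map_map]
        congr 2
        congr 1
        funext x
        simp [pow_succ]
    refine ⟨((p.reverse).map (fun x => (-1)^(n+1) * x)), ?_, ?_⟩
    · intro h0
      have h1 := fnz_zero_of _ h0
      have h2 : ∀ x ∈ p, x = 0 := by
        intro x hx
        have := h1 ((-1)^(n+1) * x) (by
          rw [List.mem_map]
          exact ⟨x, by simpa using hx, rfl⟩)
        have h3 : ((-1 : ℤ))^(n+1) ≠ 0 := by positivity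
        exact (mul_eq_zero.mp this).resolve_left h3
      have : ∀ l : List ℤ, (∀ x ∈ l, x = 0) → fnz l = 0 := by
        intro l
        induction l with
        | nil => simp [fnz]
        | cons y l ih =>
          intro h
          have hy : y = 0 := h y (by simp)
          subst hy
          rw [fnz_cons_zero]
          exact ih (fun x hx => h x (by simp [hx]))
      exact hp (this p h2)
    · rw [← Function.iterate_succ_apply]
      exact gen (n+1) p

/-- the main lower bound -/
theorem En_lower (hκ : ∀ n, 0 ≤ κ n) (hanti : ∀ n, 1 ≤ n → κ (n + 1) ≤ κ n)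
    (hT : ∀ n, T n = κ n + T (n + 1)) (hT0 : ∀ n, 0 ≤ T n) (n : ℕ) (p : List ℤ)
    (hp : fnz p ≠ 0) :
    2 * (2 * T 1 + (n : ℝ) * (T 1 + T 2)) ≤ En κ (2 * T 1) (dl^[n + 1] p) := by
  have half : ∀ p : List ℤ, fnz p ≠ 0 →
      2 * T 1 + (n : ℝ) * (T 1 + T 2) ≤ ER κ (T 1) (dl^[n + 1] p) := by
    intro p hp
    have h1 := chg_iter (n + 1) p hp
    have hs : (dl^[n + 1] p).sum = 0 := by
      rw [Function.iterate_succ_apply']
      simpa [dl] using dla_sum 0 (dl^[n] p)
    have h2 := ER_lower hκ hanti hT hT0 (dl^[n + 1] p) h1.1 hs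
    have h3 : n ≤ chg (suf (dl^[n + 1] p)) := by
      rw [Function.iterate_succ_apply']
      have h4 : suf (dl (dl^[n] p)) = 0 :: (dl^[n] p).map (fun x => -x) := by
        simpa [dl] using suf_dla 0 (dl^[n] p)
      rw [h4]
      simp only [chg, chg_neg]
      have := (chg_iter n p hp).2
      omega
    have h5 : (n : ℝ) ≤ (chg (suf (dl^[n + 1] p)) : ℝ) := by exact_mod_cast h3
    have h6 : 0 ≤ T 1 + T 2 := add_nonneg (hT0 1) (hT0 2)
    nlinarith [mul_le_mul_of_nonneg_right h5 h6]
  have h1 := half p hp
  obtain ⟨p', hp', hrev⟩ := iter_reverse (n + 1) p hp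
  have h2 := half p' hp'
  rw [← hrev, ← EL_eq_ER_reverse] at h2
  have h3 := En_ge_aux hκ hT hT0 (dl^[n + 1] p)
  have h4 := Rm_nonneg hT0 1 (dl^[n + 1] p)
  linarith

end Pool.Agent.MP658dbf
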