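import Pool.Agent.Lib.MP_658dbf_an.Upper

/-!
Explicit families of positions for `n = 1, …, 5`.
-/

set_option autoImplicit false

namespace Pool.Agent.MP658dbf

/-- the properties wanted of the positions -/
def Good (n D : ℕ) (p : ℕ → ℕ) : Prop :=
  (∀ i, i + 1 < 2 * n → i % 2 = 1 → p (i + 1) = p i + 1) ∧
  (∀ i, i + 1 < 2 * n → i % 2 = 0 → p i + D ≤ p (i + 1)) ∧
  (∀ k < n, ∑ i ∈ Finset.range (2 * n), sgn n i * (((p i).descFactorial k : ℕ) : ℤ) = 0)

theorem good1 (D : ℕ) : ∃ p, Good 1 D p := by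
  refine ⟨fun i => ([0, D] : List ℕ).getD i 0, ?_, ?_, ?_⟩
  · intro i hi h; have hi2 : i < 1 := by omega
    clear hi; interval_cases i; simp at h
  · intro i hi h; have hi2 : i < 1 := by omega
    clear hi; interval_cases i; simp
  · intro k hk
    interval_cases k
    simp [Finset.sum_range_succ, sgn]

theorem good2 (D : ℕ) : ∃ p, Good 2 D p := by
  refine ⟨fun i => ([0, D, D + 1, 2 * D + 1] : List ℕ).getD i 0, ?_, ?_, ?_⟩
  · intro i hi h; have hi2 : i < 3 := by omega
    clear hi; interval_cases i <;> simp at h ⊢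
  · intro i hi h; have hi2 : i < 3 := by omega
    clear hi; interval_cases i <;> simp at h ⊢; omega
  · intro k hk
    interval_cases k
    · simp [Finset.sum_range_succ, sgn]
    · simp [Finset.sum_range_succ, sgn]
      ring

theorem good3 (D : ℕ) : ∃ p, Good 3 D p := by
  refine ⟨fun i => ([0, D, D + 1, 3 * D + 1, 3 * D + 2, 4 * D + 2] : List ℕ).getD i 0, ?_, ?_, ?_⟩
  · intro i hi h; have hi2 : i < 5 := by omega
    clear hi; interval_cases i <;> simp at h ⊢
  · intro i hi h; have hi2 : i < 5 := by omega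
    clear hi; interval_cases i <;> simp at h ⊢ <;> omega
  · intro k hk
    interval_cases k
    · simp [Finset.sum_range_succ, sgn]
    · simp [Finset.sum_range_succ, sgn]
      ring
    · simp only [Finset.sum_range_succ, Finset.sum_range_zero, sgn, dF, Nat.descFactorial_zero]
      simp
      ring

theorem pell4 (k : ℕ) : ∃ s t : ℕ, k ≤ s ∧ k ≤ t ∧ t ^ 2 + 2 * s * t + 3 * t = s ^ 2 + s := by
  induction k with
  | zero => exact ⟨0, 0, le_rfl, le_rfl, rfl⟩
  | succ k ih =>
    obtain ⟨s, t, hs, ht, h⟩ := ih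
    refine ⟨5 * s + 2 * t + 5, 2 * s + 2 + t, by omega, by omega, ?_⟩
    nlinarith

theorem good4 (D : ℕ) : ∃ p, Good 4 D p := by
  obtain ⟨s, t, hs, ht, h⟩ := pell4 D
  have hz : (t : ℤ) ^ 2 + 2 * s * t + 3 * t = s ^ 2 + s := by exact_mod_cast h
  refine ⟨fun i => ([0, t, t + 1, s + t + 1, s + t + 2, 2 * s + t + 2, 2 * s + t + 3,
    2 * s + 2 * t + 3] : List ℕ).getD i 0, ?_, ?_, ?_⟩
  · intro i hi h; have hi2 : i < 7 := by omega
    clear hi; interval_cases i <;> simp at h ⊢
  · intro i hi h; have hi2 : i < 7 := by omega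
    clear hi; interval_cases i <;> simp at h ⊢ <;> omega
  · intro k hk
    interval_cases k
    · simp [Finset.sum_range_succ, sgn]
    · simp [Finset.sum_range_succ, sgn]
      ring
    · simp only [Finset.sum_range_succ, Finset.sum_range_zero, sgn, dF, Nat.descFactorial_zero]
      simp
      linear_combination 2 * hz
    · simp only [Finset.sum_range_succ, Finset.sum_range_zero, sgn, dF, Nat.descFactorial_zero]
      simp
      linear_combination (6 * ((s:ℤ) + t) + 3) * hz

theorem pell5 (k : ℕ) : ∃ g r : ℕ, k ≤ g ∧ k ≤ r ∧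
    2 * r ^ 2 + 2 * g * r + 3 * r = 2 * g ^ 2 + g := by
  induction k with
  | zero => exact ⟨0, 0, le_rfl, le_rfl, rfl⟩
  | succ k ih =>
    obtain ⟨g, r, hg, hr, h⟩ := ih
    refine ⟨13 * g + 8 * r + 10, 8 * g + 5 * r + 6, by omega, by omega, ?_⟩
    nlinarith

theorem good5 (D : ℕ) : ∃ p, Good 5 D p := by
  obtain ⟨g, r, hg, hr, h⟩ := pell5 D
  have hz : 2 * (r : ℤ) ^ 2 + 2 * g * r + 3 * r = 2 * g ^ 2 + g := by exact_mod_cast h
  refine ⟨fun i => ([0, r, r + 1, g + 2 * r + 1, g + 2 * r + 2, 3 * g + 2 * r + 2,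
    3 * g + 2 * r + 3, 4 * g + 3 * r + 3, 4 * g + 3 * r + 4, 4 * g + 4 * r + 4] :
    List ℕ).getD i 0, ?_, ?_, ?_⟩
  · intro i hi h; have hi2 : i < 9 := by omega
    clear hi; interval_cases i <;> simp at h ⊢
  · intro i hi h; have hi2 : i < 9 := by omega
    clear hi; interval_cases i <;> simp at h ⊢ <;> omega
  · intro k hk
    interval_cases k
    · simp [Finset.sum_range_succ, sgn]
    · simp [Finset.sum_range_succ, sgn]
      ring
    · simp only [Finset.sum_range_succ, Finset.sum_range_zero, sgn, dF, Nat.descFactorial_zero]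
      simp
      ring
    · simp only [Finset.sum_range_succ, Finset.sum_range_zero, sgn, dF, Nat.descFactorial_zero]
      simp
      linear_combination (6 * ((g:ℤ) + r + 1)) * hz
    · simp only [Finset.sum_range_succ, Finset.sum_range_zero, sgn, dF, Nat.descFactorial_zero]
      simp
      linear_combination (12 * ((g:ℤ) + r + 1) * (4 * (g + r) + 1)) * hz

end Pool.Agent.MP658dbf
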