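import Pool.Agent.Lib.MP_658dbf_an.Families

/-!
Assembly: values and lower bounds of the infimum.
-/

set_option autoImplicit false

open Set

namespace Pool.Agent.MP658dbf

theorem monic_qp {n D : ℕ} (hn : 1 ≤ n) (hD : 1 ≤ D) {p : ℕ → ℕ} (hp : Good n D p) :
    (qp n p).Monic := by
  obtain ⟨hodd, heven, -⟩ := hp
  obtain ⟨m, hm⟩ : ∃ m, 2 * n = m + 1 := ⟨2 * n - 1, by omega⟩
  unfold qp
  rw [hm, Finset.sum_range_succ, add_comm]
  have hs : sgn n m = 1 := by
    unfold sgn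
    have : (m + 1) / 2 = n := by omega
    rw [this]; simp
  rw [hs, Polynomial.C_1, one_mul]
  apply Polynomial.monic_X_pow_add
  have hlt : ∀ i ∈ Finset.range m, (Polynomial.C (sgn n i) * Polynomial.X ^ (p i)).degree
      < ((p m : ℕ) : WithBot ℕ) := by
    intro i hi
    have hi' := Finset.mem_range.mp hi
    have h1 : p i < p m := by
      have h2 := mono_of n D p hodd heven (i + 1) m (by omega) (by omega)
      have h3 : p i < p (i + 1) := by
        rcases Nat.mod_two_eq_zero_or_one i with h | h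
        · have := heven i (by omega) h; omega
        · have := hodd i (by omega) h; omega
      omega
    calc _ ≤ ((p i : ℕ) : WithBot ℕ) := Polynomial.degree_C_mul_X_pow_le _ _
      _ < _ := by exact_mod_cast h1
  apply lt_of_le_of_lt (Polynomial.degree_sum_le _ _)
  rw [Finset.sup_lt_iff]
  · exact hlt
  · exact WithBot.bot_lt_coe _

theorem exists_upper {μ : ℝ} (hμ : 0 < μ) (hμ1 : μ ≤ 1) {n D : ℕ} (hn : 1 ≤ n) (hD : 1 ≤ D)
    {p : ℕ → ℕ} (hp : Good n D p)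
    (hcnt : ∑ i ∈ Finset.range (2 * n), ∑ j ∈ Finset.range (2 * n), (if adj i j then 1 else 0)
      = 2 * (n - 1)) :
    ∃ P : Polynomial ℤ, P.Monic ∧ wInt (n + μ) P ≤ (2 * Real.pi) *
      (2 * (n + μ) * wh μ 0 / (1 + μ) + (2 * n) ^ 2 * kap μ D) := by
  have hmon := monic_qp hn hD hp
  obtain ⟨hodd, heven, hmom⟩ := hp
  obtain ⟨P, hP⟩ := dvd_of_moments n p hmom
  have hPm : P.Monic := by
    have h1 : ((Polynomial.X - 1 : Polynomial ℤ) ^ n).Monic := by
      apply Polynomial.Monic.pow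
      have := Polynomial.monic_X_sub_C (1 : ℤ)
      simpa using this
    rw [hP] at hmon
    exact h1.of_mul_monic_left hmon
  refine ⟨P, hPm, ?_⟩
  rw [wInt_of_mul hμ n p P hP]
  apply mul_le_mul_of_nonneg_left _ (by positivity)
  refine (energy_le hμ hμ1 n D hD p hodd heven hcnt).trans ?_
  have h3 := kap_one hμ
  have h4 : kap μ 1 = μ * wh μ 0 / (1 + μ) := by
    rw [eq_div_iff (by linarith)]; linarith
  rw [h4]
  have h5 : ((2 * (n - 1) : ℕ) : ℝ) = 2 * (n - 1) := by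
    push_cast [Nat.cast_sub hn]; ring
  rw [h5]
  have h6 : (1 + μ) ≠ 0 := by linarith
  apply le_of_eq
  field_simp
  ring

theorem kap_le {μ : ℝ} (hμ : 0 < μ) (hμ1 : μ ≤ 1) {D : ℕ} (hD : 1 ≤ D) :
    kap μ D ≤ 2 * wh μ 0 / D := by
  have h1 : ∀ d, 1 ≤ d → tl μ d ≤ tl μ 1 := by
    intro d hd
    induction d, hd using Nat.le_induction with
    | base => exact le_rfl
    | succ n hn ih =>
      have := tl_rec hμ n
      have := kap_nonneg hμ hμ1 n
      linarith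
  have h2 := h1 D hD
  have h3 := tl_one hμ
  have hD0 : (0:ℝ) < D := by exact_mod_cast hD
  have h4 : tl μ D = (D + μ) * kap μ D / (2 * μ) := by
    simp only [tl]; rw [if_neg (by omega)]
  rw [h4, div_le_iff₀ (by linarith)] at h2
  have h5 := kap_nonneg hμ hμ1 D
  have h6 := wh_zero_pos hμ
  rw [le_div_iff₀ hD0]
  nlinarith

/-- the infimum -/
noncomputable def wInf (l : ℝ) : ℝ := sInf {x : ℝ | ∃ P : Polynomial ℤ, P.Monic ∧ x = wInt l P}

theorem wInf_ge (l v : ℝ) (h : ∀ P : Polynomial ℤ, P.Monic → v ≤ wInt l P) : v ≤ wInf l := by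
  apply le_csInf
  · exact ⟨_, 1, Polynomial.monic_one, rfl⟩
  · rintro x ⟨P, hP, rfl⟩
    exact h P hP

theorem wInf_le (l : ℝ) (P : Polynomial ℤ) (hP : P.Monic) : wInf l ≤ wInt l P := by
  apply csInf_le
  · refine ⟨0, ?_⟩
    rintro x ⟨P, hP, rfl⟩
    unfold wInt
    apply intervalIntegral.integral_nonneg (by linarith [Real.pi_pos])
    intro θ hθ
    positivity
  · exact ⟨P, hP, rfl⟩

theorem wInf_zero {μ : ℝ} (hμ : 0 < μ) (hμ1 : μ ≤ 1) : wInf μ = (2 * Real.pi) * wh μ 0 := by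
  apply le_antisymm
  · refine (wInf_le μ 1 Polynomial.monic_one).trans ?_
    have h := wInt_eq hμ 0 1
    norm_num at h
    rw [h]
    have h2 : cl 1 = [1] := by simp [cl]
    rw [h2]
    simp [En, K]
  · apply wInf_ge
    intro P hP
    exact wInt_lower_zero hμ hμ1 hP.ne_zero

theorem wInf_lower {μ : ℝ} (hμ : 0 < μ) (hμ1 : μ ≤ 1) {n : ℕ} (hn : 1 ≤ n) :
    (2 * Real.pi) * (2 * (n + μ) * wh μ 0 / (1 + μ)) ≤ wInf (n + μ) := by
  obtain ⟨m, rfl⟩ : ∃ m, n = m + 1 := ⟨n - 1, by omega⟩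
  apply wInf_ge
  intro P hP
  exact wInt_lower hμ hμ1 m hP.ne_zero

theorem wInf_eq_of_good {μ : ℝ} (hμ : 0 < μ) (hμ1 : μ ≤ 1) {n : ℕ} (hn : 1 ≤ n)
    (hgood : ∀ D, ∃ p, Good n D p)
    (hcnt : ∑ i ∈ Finset.range (2 * n), ∑ j ∈ Finset.range (2 * n), (if adj i j then 1 else 0)
      = 2 * (n - 1)) :
    wInf (n + μ) = (2 * Real.pi) * (2 * (n + μ) * wh μ 0 / (1 + μ)) := by
  apply le_antisymm _ (wInf_lower hμ hμ1 hn)
  apply le_of_forall_pos_le_add
  intro ε hε
  set C := (2 * Real.pi) * ((2 * n) ^ 2 * (2 * wh μ 0)) with hC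
  obtain ⟨D0, hD0⟩ := exists_nat_gt (C / ε)
  set D := D0 + 1 with hDdef
  have hD1 : 1 ≤ D := by omega
  obtain ⟨p, hp⟩ := hgood D
  obtain ⟨P, hPm, hP⟩ := exists_upper hμ hμ1 hn hD1 hp hcnt
  refine (wInf_le _ P hPm).trans (hP.trans ?_)
  rw [mul_add]
  have h1 := kap_le hμ hμ1 hD1
  have hDpos : (0:ℝ) < D := by exact_mod_cast hD1
  have hDgt : C / ε < D := by
    rw [hDdef]; push_cast; linarith
  have h2 : (2 * Real.pi) * ((2 * n) ^ 2 * kap μ D) ≤ C / D := by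
    rw [hC]
    calc (2 * Real.pi) * ((2 * n) ^ 2 * kap μ D)
        ≤ (2 * Real.pi) * ((2 * n) ^ 2 * (2 * wh μ 0 / D)) := by
          apply mul_le_mul_of_nonneg_left _ (by positivity)
          exact mul_le_mul_of_nonneg_left h1 (by positivity)
      _ = _ := by ring
  have h3 : C / D ≤ ε := by
    rw [div_lt_iff₀ hε] at hDgt
    rw [div_le_iff₀ hDpos]
    linarith
  linarith

theorem good_all (n : ℕ) (h1 : 1 ≤ n) (h5 : n ≤ 5) (D : ℕ) : ∃ p, Good n D p := by
  interval_cases n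
  · exact good1 D
  · exact good2 D
  · exact good3 D
  · exact good4 D
  · exact good5 D

theorem cnt_all (n : ℕ) (h1 : 1 ≤ n) (h5 : n ≤ 5) :
    ∑ i ∈ Finset.range (2 * n), ∑ j ∈ Finset.range (2 * n), (if adj i j then 1 else 0)
      = 2 * (n - 1) := by
  interval_cases n <;> decide

theorem closed_form {μ : ℝ} (hμ : 0 < μ) (n : ℕ) :
    (2 * Real.pi) * (2 * (n + μ) * wh μ 0 / (1 + μ)) =
      4 * Real.pi * (n + μ) * Real.Gamma (2 * μ + 1) /
        (Real.Gamma (μ + 1) * Real.Gamma (μ + 2)) := by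
  rw [wh_zero hμ]
  have h1 : Real.Gamma (μ + 2) = (μ + 1) * Real.Gamma (μ + 1) := by
    have := Real.Gamma_add_one (s := μ + 1) (by linarith)
    rw [← this]; congr 1; ring
  have h2 : 0 < Real.Gamma (μ + 1) := Real.Gamma_pos_of_pos (by linarith)
  rw [h1]
  have h3 : (1 + μ) ≠ 0 := by linarith
  have h4 : (μ + 1) ≠ 0 := by linarith
  field_simp
  ring

end Pool.Agent.MP658dbf
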