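import Pool.Agent.Lib.MP_658dbf_an.Bridge

/-!
Upper bounds by explicit sparse multiples of `(X - 1)^n`.
-/

set_option autoImplicit false

open MeasureTheory Set

namespace Pool.Agent.MP658dbf

/-- sign pattern: clusters of sizes 1,2,2,…,2,1, the last sign is `+` -/
def sgn (n i : ℕ) : ℤ := (-1) ^ (n - (i + 1) / 2)

/-- the sparse polynomial -/
noncomputable def qp (n : ℕ) (p : ℕ → ℕ) : Polynomial ℤ :=
  ∑ i ∈ Finset.range (2 * n), Polynomial.C (sgn n i) * Polynomial.X ^ (p i)

theorem dF (n k : ℕ) : ((n.descFactorial (k + 1) : ℕ) : ℤ) =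
    ((n : ℤ) - k) * ((n.descFactorial k : ℕ) : ℤ) := by
  rw [Nat.descFactorial_succ]
  rcases le_or_gt k n with h | h
  · push_cast [Nat.cast_sub h]; ring
  · rw [(Nat.descFactorial_eq_zero_iff_lt).mpr h]; simp

theorem dvd_of_moments (n : ℕ) (p : ℕ → ℕ)
    (h : ∀ k < n, ∑ i ∈ Finset.range (2 * n), sgn n i * (((p i).descFactorial k : ℕ) : ℤ) = 0) :
    (Polynomial.X - 1 : Polynomial ℤ) ^ n ∣ qp n p := by
  have h1 : (Polynomial.X - 1 : Polynomial ℤ) = Polynomial.X - Polynomial.C 1 := by simp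
  rw [h1, Polynomial.X_sub_C_pow_dvd_iff, Polynomial.X_pow_dvd_iff]
  intro d hd
  have h2 := h d hd
  have h3 : (d.factorial : ℤ) * ((qp n p).comp (Polynomial.X + Polynomial.C 1)).coeff d = 0 := by
    rw [← h2]
    unfold qp
    rw [Polynomial.sum_comp, Polynomial.finsetSum_coeff, Finset.mul_sum]
    apply Finset.sum_congr rfl
    intro i hi
    rw [Polynomial.mul_comp, Polynomial.C_comp, Polynomial.X_pow_comp, Polynomial.coeff_C_mul,
      Polynomial.coeff_X_add_C_pow, Nat.descFactorial_eq_factorial_mul_choose]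
    push_cast
    ring
  have h4 : (d.factorial : ℤ) ≠ 0 := by exact_mod_cast d.factorial_ne_zero
  exact (mul_eq_zero.mp h3).resolve_left h4

/-- the integral of a signed exponential sum -/
theorem integral_sparse {μ : ℝ} (hμ : 0 < μ) (m : ℕ) (s : ℕ → ℤ) (p : ℕ → ℕ) :
    ∫ θ in (-Real.pi)..Real.pi, wt μ θ * ‖∑ i ∈ Finset.range m, (s i : ℂ) * zt θ ^ (p i)‖ ^ 2 =
      (2 * Real.pi) * ∑ i ∈ Finset.range m, ∑ j ∈ Finset.range m,
        (s i : ℝ) * s j * wh μ (Int.natAbs ((p i : ℤ) - p j)) := by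
  have hw := continuous_wt hμ
  have h1 : ∀ θ, wt μ θ * ‖∑ i ∈ Finset.range m, (s i : ℂ) * zt θ ^ (p i)‖ ^ 2 =
      ∑ i ∈ Finset.range m, ∑ j ∈ Finset.range m, ((s i : ℝ) * s j) *
        (wt μ θ * Real.cos ((Int.natAbs ((p i : ℤ) - p j) : ℕ) * θ)) := by
    intro θ
    have h2 : ‖∑ i ∈ Finset.range m, (s i : ℂ) * zt θ ^ (p i)‖ ^ 2 =
        ∑ i ∈ Finset.range m, ∑ j ∈ Finset.range m, ((s i : ℝ) * s j) *
          Real.cos ((Int.natAbs ((p i : ℤ) - p j) : ℕ) * θ) := by
      have h3 : ((‖∑ i ∈ Finset.range m, (s i : ℂ) * zt θ ^ (p i)‖ ^ 2 : ℝ) : ℂ) =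
          ∑ i ∈ Finset.range m, ∑ j ∈ Finset.range m, ((s i : ℂ) * zt θ ^ (p i)) *
            (starRingEnd ℂ) ((s j : ℂ) * zt θ ^ (p j)) := by
        rw [← Finset.sum_mul_sum, ← map_sum, Complex.mul_conj, Complex.normSq_eq_norm_sq]
      have h4 := congrArg Complex.re h3
      rw [Complex.ofReal_re, Complex.re_sum] at h4
      rw [h4]
      apply Finset.sum_congr rfl
      intro i hi
      rw [Complex.re_sum]
      apply Finset.sum_congr rfl
      intro j hj
      have h5 : ((s i : ℂ) * zt θ ^ (p i)) * (starRingEnd ℂ) ((s j : ℂ) * zt θ ^ (p j)) =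
          (((s i : ℝ) * s j : ℝ) : ℂ) * Complex.exp (((((p i : ℤ) - p j : ℤ) : ℝ) * θ : ℝ) * Complex.I) := by
        unfold zt
        rw [map_mul, map_pow, ← Complex.exp_conj, map_mul, Complex.conj_ofReal, Complex.conj_I,
          ← Complex.exp_nat_mul, ← Complex.exp_nat_mul]
        have h6 : (starRingEnd ℂ) (s j : ℂ) = (s j : ℂ) := by simp
        rw [h6]
        have h7 : Complex.exp (((((p i : ℤ) - p j : ℤ) : ℝ) * θ : ℝ) * Complex.I) =
            Complex.exp ((p i : ℂ) * (θ * Complex.I)) * Complex.exp ((p j : ℂ) * (θ * -Complex.I)) := by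
          rw [← Complex.exp_add]; congr 1; push_cast; ring
        rw [h7]
        push_cast
        ring
      rw [h5, Complex.re_ofReal_mul, Complex.exp_ofReal_mul_I_re]
      congr 1
      rw [Nat.cast_natAbs, Int.cast_abs]
      rcases abs_choice ((((p i : ℤ) - p j : ℤ)) : ℝ) with h | h
      · rw [h]
      · rw [h, neg_mul, Real.cos_neg]
    rw [h2, Finset.mul_sum]
    apply Finset.sum_congr rfl
    intro i hi
    rw [Finset.mul_sum]
    apply Finset.sum_congr rfl
    intro j hj
    ring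
  simp_rw [h1]
  rw [intervalIntegral.integral_finsetSum, Finset.mul_sum]
  · apply Finset.sum_congr rfl
    intro i hi
    rw [intervalIntegral.integral_finsetSum, Finset.mul_sum]
    · apply Finset.sum_congr rfl
      intro j hj
      rw [intervalIntegral.integral_const_mul]
      unfold wh
      have : (2 * Real.pi) ≠ 0 := by positivity
      field_simp
    · intro j hj
      apply Continuous.intervalIntegrable
      fun_prop
  · intro i hi
    apply Continuous.intervalIntegrable
    fun_prop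

theorem wInt_of_mul {μ : ℝ} (hμ : 0 < μ) (n : ℕ) (p : ℕ → ℕ) (P : Polynomial ℤ)
    (hP : qp n p = (Polynomial.X - 1) ^ n * P) :
    wInt (n + μ) P = (2 * Real.pi) * ∑ i ∈ Finset.range (2 * n), ∑ j ∈ Finset.range (2 * n),
        (sgn n i : ℝ) * sgn n j * wh μ (Int.natAbs ((p i : ℤ) - p j)) := by
  rw [← integral_sparse hμ]
  unfold wInt
  apply intervalIntegral.integral_congr
  intro θ hθ
  simp only
  have h0 : ∑ i ∈ Finset.range (2 * n), (sgn n i : ℂ) * zt θ ^ (p i) =
      Polynomial.aeval (zt θ) (qp n p) := by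
    unfold qp
    rw [map_sum]
    apply Finset.sum_congr rfl
    intro i hi
    simp
  rw [h0, hP, map_mul, map_pow]
  have h1 : ‖(Polynomial.aeval (zt θ)) (Polynomial.X - 1 : Polynomial ℤ) ^ n * (Polynomial.aeval (zt θ)) P‖ ^ 2 =
      ‖1 - zt θ‖ ^ (2 * (n : ℝ)) * ‖(Polynomial.aeval (zt θ)) P‖ ^ 2 := by
    rw [norm_mul, mul_pow, norm_pow]
    congr 1
    have h3 : ‖(Polynomial.aeval (zt θ)) (Polynomial.X - 1 : Polynomial ℤ)‖ = ‖1 - zt θ‖ := by
      rw [map_sub, Polynomial.aeval_X, map_one, norm_sub_rev]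
    rw [h3]
    have : 2 * (n : ℝ) = ((n * 2 : ℕ) : ℝ) := by push_cast; ring
    rw [this, Real.rpow_natCast, pow_mul]
  have h2 : 2 * ((n : ℝ) + μ) = 2 * μ + 2 * n := by ring
  rw [h1, h2, Real.rpow_add_of_nonneg (norm_nonneg _) (by linarith) (by positivity)]
  unfold wt zt
  ring

theorem kap_anti' {μ : ℝ} (hμ : 0 < μ) (hμ1 : μ ≤ 1) {D d : ℕ} (hD : 1 ≤ D) (hd : D ≤ d) :
    kap μ d ≤ kap μ D := by
  induction d, hd using Nat.le_induction with
  | base => exact le_rfl
  | succ n hn ih => exact (kap_anti hμ hμ1 n (by omega)).trans ih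

/-- adjacency of the two elements of a cluster -/
def adj (i j : ℕ) : Prop := (i + 1 = j ∧ i % 2 = 1) ∨ (j + 1 = i ∧ j % 2 = 1)

instance (i j : ℕ) : Decidable (adj i j) := by unfold adj; infer_instance

theorem sgn_mul_self (n i : ℕ) : sgn n i * sgn n i = 1 := by
  unfold sgn
  rw [← pow_add, ← two_mul, pow_mul]
  simp

theorem sgn_cases (n i : ℕ) : sgn n i = 1 ∨ sgn n i = -1 := by
  unfold sgn
  exact neg_one_pow_eq_or ℤ _

theorem mono_of (n D : ℕ) (p : ℕ → ℕ)
    (hodd : ∀ i, i + 1 < 2 * n → i % 2 = 1 → p (i + 1) = p i + 1)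
    (heven : ∀ i, i + 1 < 2 * n → i % 2 = 0 → p i + D ≤ p (i + 1)) (i j : ℕ) (hij : i ≤ j)
    (hj : j < 2 * n) : p i ≤ p j := by
  induction j, hij using Nat.le_induction with
  | base => exact le_rfl
  | succ m hm ih =>
    have h1 := ih (by omega)
    rcases Nat.mod_two_eq_zero_or_one m with h | h
    · have := heven m hj h; omega
    · have := hodd m hj h; omega

theorem far_of (n D : ℕ) (p : ℕ → ℕ)
    (hodd : ∀ i, i + 1 < 2 * n → i % 2 = 1 → p (i + 1) = p i + 1)
    (heven : ∀ i, i + 1 < 2 * n → i % 2 = 0 → p i + D ≤ p (i + 1)) (i j : ℕ) (hij : i < j)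
    (hj : j < 2 * n) (hc : (i + 1) / 2 ≠ (j + 1) / 2) : p i + D ≤ p j := by
  rcases Nat.mod_two_eq_zero_or_one i with h | h
  · have h1 := heven i (by omega) h
    have h2 := mono_of n D p hodd heven (i + 1) j (by omega) hj
    omega
  · have h0 : i + 2 ≤ j := by omega
    have h1 := heven (i + 1) (by omega) (by omega)
    have h2 := mono_of n D p hodd heven (i + 2) j (by omega) hj
    have h3 := mono_of n D p hodd heven i (i + 1) (by omega) (by omega)
    have : i + 1 + 1 = i + 2 := by ring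
    rw [this] at h1
    omega

theorem term_le {μ : ℝ} (hμ : 0 < μ) (hμ1 : μ ≤ 1) (n D : ℕ) (hD : 1 ≤ D) (p : ℕ → ℕ)
    (hodd : ∀ i, i + 1 < 2 * n → i % 2 = 1 → p (i + 1) = p i + 1)
    (heven : ∀ i, i + 1 < 2 * n → i % 2 = 0 → p i + D ≤ p (i + 1)) (i j : ℕ)
    (hi : i < 2 * n) (hj : j < 2 * n) :
    (sgn n i : ℝ) * sgn n j * wh μ (Int.natAbs ((p i : ℤ) - p j)) ≤
      (if i = j then wh μ 0 else 0) + (if adj i j then -kap μ 1 else 0) + kap μ D := by
  have hk := kap_nonneg hμ hμ1 D
  -- the ordered case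
  have main : ∀ i j, i < j → j < 2 * n →
      (sgn n i : ℝ) * sgn n j * wh μ (Int.natAbs ((p i : ℤ) - p j)) ≤
      (if adj i j then -kap μ 1 else 0) + kap μ D := by
    intro i j hij hj
    by_cases hc : (i + 1) / 2 = (j + 1) / 2
    · have hj1 : j = i + 1 := by omega
      have hi1 : i % 2 = 1 := by omega
      subst hj1
      have hadj : adj i (i + 1) := Or.inl ⟨rfl, hi1⟩
      rw [if_pos hadj, hodd i hj hi1]
      have h1 : Int.natAbs ((p i : ℤ) - ((p i + 1 : ℕ) : ℤ)) = 1 := by
        push_cast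
        have : (p i : ℤ) - (p i + 1) = -1 := by ring
        rw [this]; rfl
      have h2 : sgn n i = sgn n (i + 1) := by
        unfold sgn; rw [hc]
      have h3 : (sgn n i : ℝ) * sgn n (i + 1) = 1 := by
        rw [← h2]; exact_mod_cast sgn_mul_self n i
      rw [h1, h3, kap_pos μ one_ne_zero]
      linarith
    · have hfar := far_of n D p hodd heven i j hij hj hc
      have hnadj : ¬ adj i j := by unfold adj; omega
      rw [if_neg hnadj, zero_add]
      obtain ⟨d, hd⟩ : ∃ d : ℕ, p j = p i + d := ⟨p j - p i, by omega⟩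
      have h1 : Int.natAbs ((p i : ℤ) - (p j : ℤ)) = d := by
        rw [hd]; push_cast
        have : (p i : ℤ) - (p i + d) = -d := by ring
        rw [this]; simp
      have hDd : D ≤ d := by omega
      have h2 := kap_anti' hμ hμ1 hD hDd
      have h3 := kap_nonneg hμ hμ1 d
      have h4 := kap_pos μ (by omega : d ≠ 0)
      rw [h1]
      rcases sgn_cases n i with a | a <;> rcases sgn_cases n j with b | b <;> rw [a, b] <;>
        push_cast <;> linarith
  rcases lt_trichotomy i j with h | h | h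
  · rw [if_neg h.ne, zero_add]; exact main i j h hj
  · subst h
    have hnadj : ¬ adj i i := by unfold adj; omega
    rw [if_pos rfl, if_neg hnadj]
    have h3 : (sgn n i : ℝ) * sgn n i = 1 := by exact_mod_cast sgn_mul_self n i
    rw [h3]; simp; exact hk
  · rw [if_neg h.ne', zero_add]
    have h1 := main j i h hi
    have h2 : (adj i j) ↔ (adj j i) := by unfold adj; omega
    have h3 : Int.natAbs ((p i : ℤ) - p j) = Int.natAbs ((p j : ℤ) - p i) := by
      rw [← Int.natAbs_neg]; congr 1; ring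
    simp only [h2]
    rw [h3, mul_comm (sgn n i : ℝ)]
    exact h1

theorem energy_le {μ : ℝ} (hμ : 0 < μ) (hμ1 : μ ≤ 1) (n D : ℕ) (hD : 1 ≤ D) (p : ℕ → ℕ)
    (hodd : ∀ i, i + 1 < 2 * n → i % 2 = 1 → p (i + 1) = p i + 1)
    (heven : ∀ i, i + 1 < 2 * n → i % 2 = 0 → p i + D ≤ p (i + 1))
    (hcnt : ∑ i ∈ Finset.range (2 * n), ∑ j ∈ Finset.range (2 * n), (if adj i j then 1 else 0)
      = 2 * (n - 1)) :
    ∑ i ∈ Finset.range (2 * n), ∑ j ∈ Finset.range (2 * n),
        (sgn n i : ℝ) * sgn n j * wh μ (Int.natAbs ((p i : ℤ) - p j)) ≤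
      2 * n * wh μ 0 - (2 * (n - 1) : ℕ) * kap μ 1 + (2 * n) ^ 2 * kap μ D := by
  calc _ ≤ ∑ i ∈ Finset.range (2 * n), ∑ j ∈ Finset.range (2 * n),
        ((if i = j then wh μ 0 else 0) + (if adj i j then -kap μ 1 else 0) + kap μ D) := by
        apply Finset.sum_le_sum
        intro i hi
        apply Finset.sum_le_sum
        intro j hj
        exact term_le hμ hμ1 n D hD p hodd heven i j (Finset.mem_range.mp hi)
          (Finset.mem_range.mp hj)
    _ = _ := by
        simp_rw [Finset.sum_add_distrib]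
        have h1 : ∑ i ∈ Finset.range (2 * n), ∑ j ∈ Finset.range (2 * n),
            (if i = j then wh μ 0 else 0) = 2 * n * wh μ 0 := by
          have : ∀ i ∈ Finset.range (2 * n), ∑ j ∈ Finset.range (2 * n),
              (if i = j then wh μ 0 else 0) = wh μ 0 := by
            intro i hi
            rw [Finset.sum_ite_eq, if_pos hi]
          rw [Finset.sum_congr rfl this]
          simp
        have h2 : ∑ i ∈ Finset.range (2 * n), ∑ j ∈ Finset.range (2 * n),
            (if adj i j then -kap μ 1 else 0) = -((2 * (n - 1) : ℕ) : ℝ) * kap μ 1 := by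
          rw [← hcnt]
          push_cast
          rw [← Finset.sum_neg_distrib, Finset.sum_mul]
          apply Finset.sum_congr rfl
          intro i hi
          rw [← Finset.sum_neg_distrib, Finset.sum_mul]
          apply Finset.sum_congr rfl
          intro j hj
          split_ifs <;> simp
        rw [h1, h2]
        simp
        ring

end Pool.Agent.MP658dbf
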